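import Pool.Agent.W2helper55.CRP.Defs

/-!
# Annotated derivations of programmed grammars, interchange of equal nonterminals
-/

set_option autoImplicit false
set_option linter.all false

namespace Pool.Agent.W2helper55.CRP

open Relation

variable {T : Type} {G : PGram T}

/-- annotated symbols: a nonterminal with its yield, or a terminal -/
abbrev AI (G : PGram T) : Type := (G.N × List T) ⊕ T

/-- forget the yields -/
def Sk (X : List (AI G)) : List (G.N ⊕ T) := X.map (Sum.map Prod.fst id)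

/-- the word of an annotated symbol -/
def fl : AI G → List T
  | Sum.inl p => p.2
  | Sum.inr t => [t]

/-- the generated word -/
def Fl (X : List (AI G)) : List T := X.flatMap fl

/-- the multiset of the annotated nonterminals -/
def nts (X : List (AI G)) : Multiset (G.N × List T) := (X.filterMap Sum.getLeft? : List _)

@[simp] lemma Sk_nil : Sk ([] : List (AI G)) = [] := rfl
@[simp] lemma Sk_append (X Y : List (AI G)) : Sk (X ++ Y) = Sk X ++ Sk Y := List.map_append
@[simp] lemma Sk_inl (p : G.N × List T) (X : List (AI G)) :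
    Sk (Sum.inl p :: X) = Sum.inl p.1 :: Sk X := rfl
@[simp] lemma Sk_inr (t : T) (X : List (AI G)) : Sk (Sum.inr t :: X) = Sum.inr t :: Sk X := rfl
@[simp] lemma Fl_nil : Fl ([] : List (AI G)) = [] := rfl
@[simp] lemma Fl_append (X Y : List (AI G)) : Fl (X ++ Y) = Fl X ++ Fl Y := List.flatMap_append
@[simp] lemma Fl_inl (p : G.N × List T) (X : List (AI G)) : Fl (Sum.inl p :: X) = p.2 ++ Fl X := rfl
@[simp] lemma Fl_inr (t : T) (X : List (AI G)) : Fl (Sum.inr t :: X) = t :: Fl X := rfl
@[simp] lemma nts_nil : nts ([] : List (AI G)) = 0 := rfl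
@[simp] lemma nts_append (X Y : List (AI G)) : nts (X ++ Y) = nts X + nts Y := by
  simp [nts, List.filterMap_append]
@[simp] lemma nts_inl (p : G.N × List T) (X : List (AI G)) :
    nts (Sum.inl p :: X) = p ::ₘ nts X := rfl
@[simp] lemma nts_inr (t : T) (X : List (AI G)) : nts (Sum.inr t :: X) = nts X := rfl

lemma mem_nts {X : List (AI G)} {p : G.N × List T} : p ∈ nts X ↔ Sum.inl p ∈ X := by
  induction X with
  | nil => simp
  | cons a X ih =>
    cases a with
    | inl q => simp [ih]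
    | inr t => simp [ih]

lemma mem_Sk {X : List (AI G)} {A : G.N} : Sum.inl A ∈ Sk X ↔ ∃ u, (A, u) ∈ nts X := by
  induction X with
  | nil => simp
  | cons a X ih =>
    cases a with
    | inl q =>
      simp only [Sk_inl, List.mem_cons, Sum.inl.injEq, ih, nts_inl, Multiset.mem_cons]
      constructor
      · rintro (h | ⟨u, h⟩)
        · exact ⟨q.2, Or.inl (by rw [h])⟩
        · exact ⟨u, Or.inr h⟩
      · rintro ⟨u, h | h⟩
        · exact Or.inl (by rw [← h])
        · exact Or.inr ⟨u, h⟩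
    | inr t => simp [ih]

/-- an annotated derivation to a terminal word -/
inductive Ch : List (AI G) → G.Lb → Prop
  | done (z : List T) (r : G.Lb) : Ch (z.map Sum.inr) r
  | app (X₁ X₂ Z : List (AI G)) (r r' : G.Lb) (h : r' ∈ G.succ r) (hZ : Sk Z = G.rhs r)
      (hc : Ch (X₁ ++ Z ++ X₂) r') : Ch (X₁ ++ Sum.inl (G.lhs r, Fl Z) :: X₂) r
  | chk (X : List (AI G)) (r r' : G.Lb) (h : Sum.inl (G.lhs r) ∉ Sk X) (h' : r' ∈ G.fail r)
      (hc : Ch X r') : Ch X r

lemma Fl_map_inr (z : List T) : Fl (z.map Sum.inr : List (AI G)) = z := by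
  induction z with
  | nil => rfl
  | cons a z ih =>
    rw [List.map_cons, Fl_inr, ih]

lemma Sk_map_inr (z : List T) : Sk (z.map Sum.inr : List (AI G)) = z.map Sum.inr := by
  simp [Sk]

lemma nts_map_inr (z : List T) : nts (z.map Sum.inr : List (AI G)) = 0 := by
  induction z with
  | nil => rfl
  | cons a z ih =>
    rw [List.map_cons, nts_inr, ih]

lemma of_nts_zero {X : List (AI G)} (h : nts X = 0) : X = (Fl X).map Sum.inr := by
  induction X with
  | nil => rfl
  | cons a X ih =>
    cases a with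
    | inl q => simp at h
    | inr t =>
      rw [Fl_inr, List.map_cons, ← ih (by simpa using h)]

/-- annotate a derivation -/
lemma annot {x : List (G.N ⊕ T)} {r : G.Lb} {z : List T} {r' : G.Lb}
    (h : ReflTransGen G.Step (x, r) (z.map Sum.inr, r')) :
    ∃ X : List (AI G), Sk X = x ∧ Ch X r ∧ Fl X = z := by
  generalize hc : (x, r) = c at h
  induction h using ReflTransGen.head_induction_on generalizing x r with
  | refl =>
    cases hc
    exact ⟨z.map Sum.inr, Sk_map_inr z, Ch.done z _, Fl_map_inr z⟩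
  | head hs _ ih =>
    subst hc
    cases hs with
    | app x₁ x₂ r r'' hr =>
      obtain ⟨Y, hY, hCh, hF⟩ := ih rfl
      unfold Sk at hY
      rw [List.map_eq_append_iff] at hY
      obtain ⟨Y', Y₂, rfl, hY', hY₂⟩ := hY
      rw [List.map_eq_append_iff] at hY'
      obtain ⟨Y₁, Z, rfl, hY₁, hZ⟩ := hY'
      refine ⟨Y₁ ++ Sum.inl (G.lhs r, Fl Z) :: Y₂, ?_, Ch.app Y₁ Y₂ Z r r'' hr hZ hCh, ?_⟩
      · rw [Sk_append, Sk_inl]
        unfold Sk
        rw [hY₁, hY₂]
      · rw [← hF]
        simp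
    | chk x r r'' hr hr' =>
      obtain ⟨Y, hY, hCh, hF⟩ := ih rfl
      exact ⟨Y, hY, Ch.chk Y r r'' (by rw [hY]; exact hr) hr' hCh, hF⟩

/-- the yields are nonempty -/
lemma Ch.ne_nil (hG : G.NonErasing) {X : List (AI G)} {r : G.Lb} (h : Ch X r) :
    ∀ p ∈ nts X, p.2 ≠ [] := by
  induction h with
  | done z r => intro p hp; rw [nts_map_inr] at hp; simp at hp
  | app X₁ X₂ Z r r' h hZ hc ih =>
    intro p hp
    simp only [nts_append, nts_inl, Multiset.mem_add, Multiset.mem_cons] at hp ih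
    rcases hp with hp | rfl | hp
    · exact ih p (Or.inl (Or.inl hp))
    · show Fl Z ≠ []
      have hZ0 : Z ≠ [] := by
        rintro rfl
        exact hG r hZ.symm
      obtain ⟨a, Z', rfl⟩ := List.exists_cons_of_ne_nil hZ0
      cases a with
      | inl q =>
        rw [Fl_inl]
        have := ih q (Or.inl (Or.inr (by simp)))
        simp [this]
      | inr t => simp
    · exact ih p (Or.inr hp)
  | chk X r r' h h' hc ih => exact ih

/-- other annotations with the same annotated nonterminals -/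
lemma Ch.realize {X : List (AI G)} {r : G.Lb} (h : Ch X r) :
    ∀ Y : List (AI G), nts Y = nts X → ∃ r', ReflTransGen G.Step (Sk Y, r) ((Fl Y).map Sum.inr, r')
      := by
  induction h with
  | done z r =>
    intro Y hY
    rw [nts_map_inr] at hY
    refine ⟨r, ?_⟩
    conv_lhs => rw [of_nts_zero hY, Sk_map_inr]
  | app X₁ X₂ Z r r' h hZ hc ih =>
    intro Y hY
    have h1 : (G.lhs r, Fl Z) ∈ nts Y := by
      rw [hY]; simp
    rw [mem_nts] at h1
    obtain ⟨Y₁, Y₂, rfl⟩ := List.append_of_mem h1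
    obtain ⟨r'', h2⟩ := ih (Y₁ ++ Z ++ Y₂) (by
      simp only [nts_append, nts_inl] at hY ⊢
      rw [Multiset.add_cons, Multiset.add_cons, Multiset.cons_inj_right] at hY
      calc nts Y₁ + nts Z + nts Y₂ = nts Y₁ + nts Y₂ + nts Z := by abel
        _ = nts X₁ + nts X₂ + nts Z := by rw [hY]
        _ = _ := by abel)
    refine ⟨r'', ReflTransGen.head ?_ (by simpa using h2)⟩
    have h3 := PGram.Step.app (G := G) (Sk Y₁) (Sk Y₂) r r' h
    rw [← hZ] at h3
    simpa only [Sk_append, Sk_inl, List.append_assoc] using h3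
  | chk X r r' h h' hc ih =>
    intro Y hY
    obtain ⟨r'', h2⟩ := ih Y hY
    refine ⟨r'', ReflTransGen.head (PGram.Step.chk _ r r' ?_ h') h2⟩
    rw [mem_Sk] at h ⊢
    rwa [hY]

/-- annotate a word with a given multiset of yields -/
lemma exists_annot (x : List (G.N ⊕ T)) : ∀ s : Multiset (G.N × List T),
    s.map Prod.fst = (x.filterMap Sum.getLeft? : List G.N) → ∃ Y : List (AI G), Sk Y = x ∧ nts Y = s
      := by
  induction x with
  | nil =>
    intro s hs
    refine ⟨[], rfl, ?_⟩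
    simp at hs
    rw [hs]
    rfl
  | cons a x ih =>
    intro s hs
    cases a with
    | inl A =>
      have h1 : A ∈ s.map Prod.fst := by rw [hs]; simp
      rw [Multiset.mem_map] at h1
      obtain ⟨p, hp, rfl⟩ := h1
      obtain ⟨s', rfl⟩ := Multiset.exists_cons_of_mem hp
      obtain ⟨Y, hY, hY'⟩ := ih s' (by
        have h2 : (List.filterMap Sum.getLeft? (Sum.inl p.1 :: x) : List G.N) =
          p.1 :: List.filterMap Sum.getLeft? x := rfl
        rw [h2, Multiset.map_cons, ← Multiset.cons_coe, Multiset.cons_inj_right] at hs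
        exact hs)
      exact ⟨Sum.inl p :: Y, by rw [Sk_inl, hY], by rw [nts_inl, hY']⟩
    | inr t =>
      obtain ⟨Y, hY, hY'⟩ := ih s (by rw [hs]; rfl)
      exact ⟨Sum.inr t :: Y, by rw [Sk_inr, hY], by rw [nts_inr, hY']⟩

lemma nts_fst (X : List (AI G)) :
    (nts X).map Prod.fst = ((Sk X).filterMap Sum.getLeft? : List G.N) := by
  induction X with
  | nil => rfl
  | cons a X ih =>
    cases a with
    | inl q => rw [nts_inl, Sk_inl, Multiset.map_cons, ih]; rfl
    | inr t => rw [nts_inr, Sk_inr, ih]; rfl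

/-- a stage of a derivation of `z` -/
structure Stage (z : List T) (X : List (AI G)) (r : G.Lb) : Prop where
  reach : ∃ r₀, ReflTransGen G.Step ([Sum.inl G.S], r₀) (Sk X, r)
  ch : Ch X r
  fl : Fl X = z

lemma Stage.splice {z : List T} {X Y : List (AI G)} {r : G.Lb} (h : Stage z X r) (hY : Ch Y r)
    (he : (nts Y).map Prod.fst = (nts X).map Prod.fst) :
    ∃ W : List (AI G), Sk W = Sk X ∧ nts W = nts Y ∧ Fl W ∈ G.lang := by
  obtain ⟨W, hW, hW'⟩ := exists_annot (Sk X) (nts Y) (by rw [he, nts_fst])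
  obtain ⟨r', h1⟩ := hY.realize W hW'
  obtain ⟨r₀, h0⟩ := h.reach
  refine ⟨W, hW, hW', r₀, r', h0.trans ?_⟩
  rw [← hW]
  exact h1

lemma Stage.mem {z : List T} {X : List (AI G)} {r : G.Lb} (h : Stage z X r) : z ∈ G.lang := by
  obtain ⟨r', h1⟩ := h.ch.realize X rfl
  obtain ⟨r₀, h0⟩ := h.reach
  rw [h.fl] at h1
  exact ⟨r₀, r', h0.trans h1⟩

lemma Stage.swap {z : List T} {X₁ X₂ X₃ : List (AI G)} {A : G.N} {u v : List T} {r : G.Lb}
    (h : Stage z (X₁ ++ Sum.inl (A, u) :: (X₂ ++ Sum.inl (A, v) :: X₃)) r) :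
    Fl X₁ ++ v ++ Fl X₂ ++ u ++ Fl X₃ ∈ G.lang := by
  obtain ⟨r', h1⟩ := h.ch.realize (X₁ ++ Sum.inl (A, v) :: (X₂ ++ Sum.inl (A, u) :: X₃)) (by
    simp only [nts_append, nts_inl]
    simp only [Multiset.add_cons, Multiset.cons_swap])
  obtain ⟨r₀, h0⟩ := h.reach
  have h2 : Fl (X₁ ++ Sum.inl (A, v) :: (X₂ ++ Sum.inl (A, u) :: X₃)) =
    Fl X₁ ++ v ++ Fl X₂ ++ u ++ Fl X₃ := by simp
  rw [h2] at h1
  refine ⟨r₀, r', h0.trans ?_⟩
  simpa using h1

/-- the first stage -/
lemma exists_stage {z : List T} (hz : z ∈ G.lang) :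
    ∃ r, Stage (G := G) z [Sum.inl (G.S, z)] r := by
  obtain ⟨r, r', h⟩ := hz
  obtain ⟨X, hX, hc, hf⟩ := annot h
  have h1 : X = [Sum.inl (G.S, z)] := by
    unfold Sk at hX
    rw [List.map_eq_singleton_iff] at hX
    obtain ⟨a, rfl, ha⟩ := hX
    cases a with
    | inl q =>
      have h2 : q.1 = G.S := by simpa using ha
      have h3 : q.2 = z := by simpa using hf
      rw [← h2, ← h3]
    | inr t => simp at ha
  subst h1
  exact ⟨r, ⟨r, ReflTransGen.refl⟩, hc, hf⟩

end Pool.Agent.W2helper55.CRP
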