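import Pool.Agent.W2helper55.CRP.Dy

/-!
# Covers of the full binary tree with few boundaries and few separated pairs
-/

set_option autoImplicit false
set_option linter.all false

namespace Pool.Agent.W2helper55.CRP

/-- number of changes in `x :: l` -/
def bdc : Bool → List Bool → ℕ
  | _, [] => 0
  | x, a :: l => (if x = a then 0 else 1) + bdc a l

/-- last element of `x :: l` -/
def lst : Bool → List Bool → Bool
  | x, [] => x
  | _, a :: l => lst a l

lemma bdc_append : ∀ (x : Bool) (l l' : List Bool), bdc x (l ++ l') = bdc x l + bdc (lst x l) l'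
  | x, [], l' => by simp [bdc, lst]
  | x, a :: l, l' => by
    simp only [List.cons_append, bdc, lst]
    rw [bdc_append a l l']
    omega

lemma bdc_self (x : Bool) : bdc x [x] = 0 := by simp [bdc]

lemma bdc_replicate (x : Bool) (n : ℕ) : bdc x (List.replicate n x) = 0 := by
  induction n with
  | zero => rfl
  | succ n ih => simp [List.replicate_succ, bdc, ih]

lemma lst_replicate (x : Bool) (n : ℕ) : lst x (List.replicate n x) = x := by
  induction n with
  | zero => rfl
  | succ n ih => simp [List.replicate_succ, lst, ih]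

lemma eq_replicate_of_bdc : ∀ (x : Bool) (l : List Bool), bdc x l = 0 →
    l = List.replicate l.length x
  | x, [], _ => rfl
  | x, a :: l, h => by
    simp only [bdc] at h
    have h1 : x = a := by
      by_contra h0
      simp [h0] at h
    subst h1
    have h2 := eq_replicate_of_bdc x l (by omega)
    rw [List.length_cons, List.replicate_succ, ← h2]

lemma bdc_cons_le (x a : Bool) (l : List Bool) : bdc a (a :: l) ≤ bdc x (a :: l) := by
  simp only [bdc]
  split_ifs <;> omega

/-- nested brackets -/
def nestN : ℕ → Sh → Sh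
  | 0, d => d
  | m + 1, d => Sh.nest (nestN m d)

/-- the full binary tree of height `h`, `m` brackets at each vertex -/
def TT (m : ℕ) : ℕ → Sh
  | 0 => nestN m Sh.nil
  | h + 1 => nestN m (Sh.cat (TT m h) (TT m h))

lemma nest_dec : ∀ (m : ℕ) (d : Sh) (c : Cov (nestN m d)), ∃ (a b : List Bool) (c' : Cov d),
    toL (nestN m d) c = a ++ toL d c' ++ b ∧ a.length = 2 * m ∧ b.length = 2 * m ∧
      sepN d c' ≤ sepN (nestN m d) c ∧ ∀ x y, x ≠ y → a = List.replicate (2 * m) x →
        b = List.replicate (2 * m) y → m ≤ sepN (nestN m d) c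
  | 0, d, c => ⟨[], [], c, by simp [nestN], rfl, rfl, le_rfl, fun _ _ _ _ _ => Nat.zero_le _⟩
  | m + 1, d, c => by
    obtain ⟨a, b, c', h1, h2, h3, h4, h5⟩ := nest_dec m d c.2.1
    refine ⟨c.1.1 :: c.1.2 :: a, b ++ [c.2.2.1, c.2.2.2], c', ?_, ?_, ?_, ?_, ?_⟩
    · show c.1.1 :: c.1.2 :: (toL (nestN m d) c.2.1 ++ [c.2.2.1, c.2.2.2]) = _
      rw [h1]
      simp
    · simp only [List.length_cons]; omega
    · simp only [List.length_append, List.length_cons, List.length_nil]; omega
    · show sepN d c' ≤ (if c.1.1 = c.2.2.2 then 0 else 1) + sepN (nestN m d) c.2.1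
      omega
    · intro x y hxy ha hb
      show m + 1 ≤ (if c.1.1 = c.2.2.2 then 0 else 1) + sepN (nestN m d) c.2.1
      have e1 : 2 * (m + 1) = 2 * m + 1 + 1 := by ring
      rw [e1, List.replicate_succ, List.replicate_succ] at ha
      simp only [List.cons.injEq] at ha
      obtain ⟨ha1, ha2, ha3⟩ := ha
      have hb' : b ++ [c.2.2.1, c.2.2.2] = List.replicate (2 * m) y ++ [y, y] := by
        rw [hb]
        have : [y, y] = List.replicate 2 y := rfl
        rw [this, List.replicate_append_replicate]
        congr 1
      obtain ⟨hb1, hb2⟩ := List.append_inj hb' (by rw [h3, List.length_replicate])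
      simp only [List.cons.injEq, and_true] at hb2
      have h6 := h5 x y hxy ha3 hb1
      rw [ha1, hb2.2, if_neg hxy]
      omega

/-- size of the tree of height `h` -/
def NN (h : ℕ) : ℤ := 2 ^ (h + 1) - 1

/-- the sum of the tree sizes with signs -/
def val (κ : Bool) (D : List (ℕ × Bool)) (h : ℕ) : ℤ :=
  (if κ then NN h else 0) + (D.map fun e => if e.2 then NN e.1 else - NN e.1).sum

lemma count_bound (l : List Bool) : (0 : ℤ) ≤ l.count true ∧ (l.count true : ℤ) ≤ l.length :=
  ⟨by positivity, by exact_mod_cast List.count_le_length⟩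

lemma count_rep (n : ℕ) (κ : Bool) :
    ((List.replicate n κ).count true : ℤ) = if κ then (n : ℤ) else 0 := by
  rw [List.count_replicate]
  cases κ <;> simp

/-- the edge to a child of another colour -/
def edg (κ κ' : Bool) (h : ℕ) : List (ℕ × Bool) := if κ = κ' then [] else [(h, κ')]

lemma edg_length (κ κ' : Bool) (h : ℕ) : (edg κ κ' h).length = if κ' = κ then 0 else 1 := by
  unfold edg
  cases κ <;> cases κ' <;> rfl

lemma val_succ (κ κ₁ κ₂ : Bool) (D₁ D₂ : List (ℕ × Bool)) (h : ℕ) :
    val κ (D₁ ++ D₂ ++ edg κ κ₁ h ++ edg κ κ₂ h) (h + 1) =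
      (if κ then 1 else 0) + val κ₁ D₁ h + val κ₂ D₂ h := by
  have h1 : NN (h + 1) = 1 + 2 * NN h := by unfold NN; ring
  unfold val edg
  rw [h1]
  cases κ <;> cases κ₁ <;> cases κ₂ <;> simp <;> ring

theorem lemA (m : ℕ) (hm : 1 ≤ m) : ∀ (h : ℕ) (c : Cov (TT m h)), sepN (TT m h) c < m →
    ∃ (κ : Bool) (D : List (ℕ × Bool)) (e : ℕ), (∀ t ∈ D, t.1 < h) ∧
      (∀ x y, D.length + (if κ = x then 0 else 1) + (if κ = y then 0 else 1) ≤
        4 * bdc x (toL (TT m h) c ++ [y])) ∧
      (∀ x y, e ≤ bdc x (toL (TT m h) c ++ [y])) ∧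
      |((toL (TT m h) c).count true : ℤ) - 4 * m * val κ D h| ≤ 4 * m * e := by
  intro h
  induction h with
  | zero =>
    intro c hc
    obtain ⟨a, b, c', h1, h2, h3, h4, h5⟩ := nest_dec m Sh.nil c
    have h1' : toL (TT m 0) c = a ++ b := by
      refine h1.trans ?_
      simp [toL]
    obtain ⟨α, a', rfl⟩ := List.exists_cons_of_length_pos (l := a) (by omega)
    obtain ⟨β, b', rfl⟩ := List.exists_cons_of_length_pos (l := b) (by omega)
    have hb : ∀ x y, bdc x (toL (TT m 0) c ++ [y]) = (if x = α then 0 else 1) + bdc α a' +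
        ((if lst α a' = β then 0 else 1) + (bdc β b' + (if lst β b' = y then 0 else 1))) := by
      intro x y
      rw [h1']
      simp only [List.append_assoc, List.cons_append, bdc, bdc_append]
      omega
    have hcnt : ((toL (TT m 0) c).count true : ℤ) = ((α :: a').count true : ℤ) +
        ((β :: b').count true : ℤ) := by
      rw [h1', List.count_append]
      push_cast
      ring
    by_cases hcl : bdc α a' = 0 ∧ bdc β b' = 0
    · have ea := eq_replicate_of_bdc α a' hcl.1
      have eb := eq_replicate_of_bdc β b' hcl.2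
      have ea' : α :: a' = List.replicate (2 * m) α := by
        rw [← h2, List.length_cons, List.replicate_succ, ← ea]
      have eb' : β :: b' = List.replicate (2 * m) β := by
        rw [← h3, List.length_cons, List.replicate_succ, ← eb]
      have hab : α = β := by
        by_contra h0
        have h6 : m ≤ sepN (TT m 0) c := h5 α β h0 ea' eb'
        omega
      subst hab
      have el : lst α b' = α := by rw [eb, lst_replicate]
      refine ⟨α, [], 0, by simp, ?_, by simp, ?_⟩
      · intro x y
        rw [hb, el]
        simp only [List.length_nil]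
        cases α <;> cases x <;> cases y <;> simp <;> omega
      · rw [hcnt, ea', eb', count_rep]
        unfold val NN
        cases α
        · simp
        · simp
          ring
    · refine ⟨false, [], 1, by simp, ?_, ?_, ?_⟩
      · intro x y
        rw [hb]
        simp only [List.length_nil]
        have : 1 ≤ bdc α a' + bdc β b' := by omega
        split_ifs <;> omega
      · intro x y
        rw [hb]
        have : 1 ≤ bdc α a' + bdc β b' := by omega
        split_ifs <;> omega
      · rw [hcnt]
        unfold val
        have e1 := count_bound (α :: a')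
        have e2 := count_bound (β :: b')
        rw [h2] at e1
        rw [h3] at e2
        simp only [List.map_nil, List.sum_nil, Bool.false_eq_true, if_false, add_zero, mul_zero,
          sub_zero, Nat.cast_one, mul_one]
        push_cast at e1 e2
        rw [abs_le]
        constructor <;> linarith [e1.1, e1.2, e2.1, e2.2]
  | succ h ih =>
    intro c hc
    obtain ⟨a, b, c', h1, h2, h3, h4, h5⟩ := nest_dec m (Sh.cat (TT m h) (TT m h)) c
    have h4' : sepN (TT m h) c'.1 + sepN (TT m h) c'.2 ≤ sepN (TT m (h + 1)) c := h4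
    obtain ⟨κ₁, D₁, e₁, i1, i2, i3, i4⟩ := ih c'.1 (by omega)
    obtain ⟨κ₂, D₂, e₂, j1, j2, j3, j4⟩ := ih c'.2 (by omega)
    have h1' : toL (TT m (h + 1)) c = a ++ (toL (TT m h) c'.1 ++ toL (TT m h) c'.2) ++ b := h1
    have hlen : 0 < (toL (TT m h) c'.2).length := by
      rw [toL_length]
      cases h with
      | zero =>
        show 0 < len (nestN m Sh.nil)
        obtain ⟨m, rfl⟩ : ∃ m', m = m' + 1 := ⟨m - 1, by omega⟩
        simp [nestN, len]
      | succ h =>
        show 0 < len (nestN m _)
        obtain ⟨m, rfl⟩ : ∃ m', m = m' + 1 := ⟨m - 1, by omega⟩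
        simp [nestN, len]
    obtain ⟨α, a', rfl⟩ := List.exists_cons_of_length_pos (l := a) (by omega)
    obtain ⟨β, b', rfl⟩ := List.exists_cons_of_length_pos (l := b) (by omega)
    generalize toL (TT m h) c'.1 = l₁ at *
    generalize toL (TT m h) c'.2 = l₂ at *
    obtain ⟨γ, l₂', rfl⟩ := List.exists_cons_of_length_pos (l := l₂) hlen
    have hb : ∀ x y, (if x = α then 0 else 1) + bdc α a' +
        bdc (lst α a') (l₁ ++ [lst (lst α a') l₁]) + bdc γ (γ :: l₂' ++ [β]) +
          bdc β b' + (if lst β b' = y then 0 else 1) ≤ bdc x (toL (TT m (h + 1)) c ++ [y]) := by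
      intro x y
      rw [h1']
      have e1 : α :: a' ++ (l₁ ++ γ :: l₂') ++ β :: b' ++ [y] =
        α :: (a' ++ (l₁ ++ (γ :: (l₂' ++ (β :: (b' ++ [y])))))) := by simp
      rw [e1]
      have e2 : bdc γ (γ :: l₂' ++ [β]) = bdc γ l₂' + (if lst γ l₂' = β then 0 else 1) := by
        simp [bdc, bdc_append]
      have e3 : bdc (lst α a') (l₁ ++ [lst (lst α a') l₁]) = bdc (lst α a') l₁ := by
        rw [bdc_append, bdc_self, add_zero]
      rw [e2, e3]
      simp only [bdc, bdc_append]
      omega
    have hcnt : ((toL (TT m (h + 1)) c).count true : ℤ) = ((α :: a').count true : ℤ) +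
        (l₁.count true : ℤ) + ((γ :: l₂').count true : ℤ) + ((β :: b').count true : ℤ) := by
      rw [h1', List.count_append, List.count_append, List.count_append]
      push_cast
      ring
    by_cases hcl : bdc α a' = 0 ∧ bdc β b' = 0
    · have ea := eq_replicate_of_bdc α a' hcl.1
      have eb := eq_replicate_of_bdc β b' hcl.2
      have ea' : α :: a' = List.replicate (2 * m) α := by
        rw [← h2, List.length_cons, List.replicate_succ, ← ea]
      have eb' : β :: b' = List.replicate (2 * m) β := by
        rw [← h3, List.length_cons, List.replicate_succ, ← eb]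
      have hab : α = β := by
        by_contra h0
        have h6 : m ≤ sepN (TT m (h + 1)) c := h5 α β h0 ea' eb'
        omega
      subst hab
      have el : lst α b' = α := by rw [eb, lst_replicate]
      have el' : lst α a' = α := by rw [ea, lst_replicate]
      refine ⟨α, D₁ ++ D₂ ++ edg α κ₁ h ++ edg α κ₂ h, e₁ + e₂, ?_, ?_, ?_, ?_⟩
      · intro t ht
        simp only [List.mem_append] at ht
        rcases ht with ((ht | ht) | ht) | ht
        · have := i1 t ht; omega
        · have := j1 t ht; omega
        · unfold edg at ht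
          split_ifs at ht
          · simp at ht
          · simp only [List.mem_singleton] at ht
            rw [ht]; simp
        · unfold edg at ht
          split_ifs at ht
          · simp at ht
          · simp only [List.mem_singleton] at ht
            rw [ht]; simp
      · intro x y
        have k0 := hb x y
        have k1 := i2 (lst α a') (lst (lst α a') l₁)
        have k2 := j2 γ α
        simp only [List.length_append, edg_length]
        rw [el'] at k0 k1
        rw [el] at k0
        have k3 : (if α = x then 0 else 1) = (if x = α then 0 else 1) := by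
          cases α <;> cases x <;> rfl
        rw [k3]
        omega
      · intro x y
        have k0 := hb x y
        have k1 := i3 (lst α a') (lst (lst α a') l₁)
        have k2 := j3 γ α
        omega
      · rw [hcnt, ea', eb', count_rep, val_succ]
        have e5 : (if α = true then ((2 * m : ℕ) : ℤ) else 0) = 2 * m * (if α = true then 1 else 0) := by
          cases α <;> simp
        rw [e5]
        rw [abs_le] at i4 j4 ⊢
        push_cast
        constructor <;> linarith [i4.1, i4.2, j4.1, j4.2]
    · have hcl' : 1 ≤ bdc α a' + bdc β b' := by omega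
      refine ⟨false, D₁ ++ D₂ ++ edg false κ₁ h ++ edg false κ₂ h, e₁ + e₂ + 1, ?_, ?_, ?_, ?_⟩
      · intro t ht
        simp only [List.mem_append] at ht
        rcases ht with ((ht | ht) | ht) | ht
        · have := i1 t ht; omega
        · have := j1 t ht; omega
        · unfold edg at ht
          split_ifs at ht
          · simp at ht
          · simp only [List.mem_singleton] at ht
            rw [ht]; simp
        · unfold edg at ht
          split_ifs at ht
          · simp at ht
          · simp only [List.mem_singleton] at ht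
            rw [ht]; simp
      · intro x y
        have k0 := hb x y
        have k1 := i2 (lst α a') (lst (lst α a') l₁)
        have k2 := j2 γ β
        simp only [List.length_append, edg_length]
        have k3 : (if κ₁ = false then 0 else 1) ≤ 1 := by split_ifs <;> omega
        have k4 : (if κ₂ = false then 0 else 1) ≤ 1 := by split_ifs <;> omega
        have k5 : (if false = x then 0 else 1) ≤ 1 := by split_ifs <;> omega
        have k6 : (if false = y then 0 else 1) ≤ 1 := by split_ifs <;> omega
        omega
      · intro x y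
        have k0 := hb x y
        have k1 := i3 (lst α a') (lst (lst α a') l₁)
        have k2 := j3 γ β
        omega
      · rw [hcnt, val_succ]
        have e1 := count_bound (α :: a')
        have e2 := count_bound (β :: b')
        rw [h2] at e1
        rw [h3] at e2
        push_cast at e1 e2 ⊢
        try simp only [Bool.false_eq_true, if_false]
        rw [abs_le] at i4 j4 ⊢
        constructor <;> linarith [i4.1, i4.2, j4.1, j4.2, e1.1, e1.2, e2.1, e2.2]

/-! ### few values -/

/-- the possible values -/
noncomputable def VV (H b : ℕ) : Finset ℤ := by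
  classical
  exact Finset.univ.image fun t : Bool × (Fin b → Option (Fin H × Bool)) =>
    (if t.1 then NN H else 0) + ∑ i, match t.2 i with
      | none => 0
      | some e => if e.2 then NN e.1 else - NN e.1

lemma VV_card (H b : ℕ) : (VV H b).card ≤ 2 * (2 * H + 1) ^ b := by
  classical
  unfold VV
  refine Finset.card_image_le.trans ?_
  rw [Finset.card_univ, Fintype.card_prod, Fintype.card_fun, Fintype.card_option,
    Fintype.card_prod, Fintype.card_bool, Fintype.card_fin, Fintype.card_fin, mul_comm H 2]

lemma mem_VV {H b : ℕ} {κ : Bool} {D : List (ℕ × Bool)} (h : ∀ t ∈ D, t.1 < H)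
    (hb : D.length ≤ b) : val κ D H ∈ VV H b := by
  classical
  unfold VV
  rw [Finset.mem_image]
  refine ⟨(κ, fun i => if hi : (i : ℕ) < D.length then
    some (⟨(D[(i : ℕ)]).1, h _ (List.getElem_mem hi)⟩, (D[(i : ℕ)]).2) else none),
    Finset.mem_univ _, ?_⟩
  unfold val
  congr 1
  have h1 : ∀ (D : List (ℕ × Bool)) (h : ∀ t ∈ D, t.1 < H) (b : ℕ), D.length ≤ b →
      (∑ i : Fin b, (match (if hi : (i : ℕ) < D.length then
        some ((⟨(D[(i : ℕ)]).1, h _ (List.getElem_mem hi)⟩ : Fin H), (D[(i : ℕ)]).2)
          else none : Option (Fin H × Bool)) with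
        | none => 0
        | some e => if e.2 then NN e.1 else - NN e.1)) =
      (D.map fun e => if e.2 then NN e.1 else - NN e.1).sum := by
    intro D
    induction D with
    | nil => intro h b hb; simp
    | cons d D ih =>
      intro h b hb
      obtain ⟨b, rfl⟩ : ∃ b', b = b' + 1 := ⟨b - 1, by simp at hb; omega⟩
      rw [Fin.sum_univ_succ, List.map_cons, List.sum_cons, ← ih (fun t ht => h t
        (List.mem_cons_of_mem _ ht)) b (by simpa using hb)]
      congr 1
      refine Finset.sum_congr rfl fun i _ => ?_
      by_cases hi : (i : ℕ) < D.length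
      · have hi' : ((Fin.succ i : Fin (b + 1)) : ℕ) < (d :: D).length := by simpa using hi
        rw [dif_pos hi, dif_pos hi']
        simp
      · have hi' : ¬ ((Fin.succ i : Fin (b + 1)) : ℕ) < (d :: D).length := by simpa using hi
        rw [dif_neg hi, dif_neg hi']
  exact h1 D h b hb

lemma exists_big (K : ℕ) : ∃ H : ℕ, 2 * (2 * H + 1) ^ (8 * K) * (4 * K + 3) < 2 ^ (H + 1) := by
  have h1 := tendsto_pow_const_div_const_pow_of_one_lt (8 * K) (r := (2 : ℝ)) (by norm_num)
  have h2 : (0 : ℝ) < 1 / (2 * 3 ^ (8 * K) * (4 * K + 3)) := by positivity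
  obtain ⟨H, hH, hH1⟩ := ((h1.eventually_lt_const h2).and (Filter.eventually_ge_atTop 1)).exists
  refine ⟨H, ?_⟩
  rw [div_lt_div_iff₀ (by positivity) (by positivity)] at hH
  have h3 : (2 * (2 * H + 1) ^ (8 * K) * (4 * K + 3) : ℝ) < 2 ^ (H + 1) := by
    have h4 : ((2 * H + 1 : ℕ) : ℝ) ≤ 3 * H := by
      push_cast
      have : (1 : ℝ) ≤ H := by exact_mod_cast hH1
      linarith
    have h5 : ((2 * H + 1 : ℕ) : ℝ) ^ (8 * K) ≤ 3 ^ (8 * K) * (H : ℝ) ^ (8 * K) := by
      rw [← mul_pow]
      exact pow_le_pow_left₀ (by positivity) h4 _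
    push_cast at h5
    calc (2 * (2 * H + 1) ^ (8 * K) * (4 * K + 3) : ℝ)
        ≤ 2 * (3 ^ (8 * K) * (H : ℝ) ^ (8 * K)) * (4 * K + 3) := by gcongr
      _ = (H : ℝ) ^ (8 * K) * (2 * 3 ^ (8 * K) * (4 * K + 3)) := by ring
      _ < 1 * 2 ^ H := hH
      _ ≤ 2 ^ (H + 1) := by
        rw [one_mul]
        exact pow_le_pow_right₀ (by norm_num) (by omega)
  exact_mod_cast h3

/-- for some height there is a size without good covers -/
theorem exists_gap (K : ℕ) : ∃ H : ℕ, ∀ m : ℕ, 1 ≤ m → ∃ q : ℕ, q < 2 ^ (H + 1) ∧
    ∀ c : Cov (TT m H), sepN (TT m H) c < m → bdc false (toL (TT m H) c ++ [false]) ≤ 2 * K →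
      ¬ |((toL (TT m H) c).count true : ℤ) - 4 * m * q| ≤ 4 * m := by
  obtain ⟨H, hH⟩ := exists_big K
  refine ⟨H, fun m hm => ?_⟩
  by_contra hcon
  push Not at hcon
  classical
  have h1 : Finset.image (fun q : ℕ => (q : ℤ)) (Finset.range (2 ^ (H + 1))) ⊆
      (VV H (8 * K)).biUnion fun v => Finset.Icc (v - (2 * K + 1)) (v + (2 * K + 1)) := by
    intro z hz
    rw [Finset.mem_image] at hz
    obtain ⟨q, hq, rfl⟩ := hz
    obtain ⟨c, h1, h2, h3⟩ := hcon q (Finset.mem_range.1 hq)
    obtain ⟨κ, D, e, i1, i2, i3, i4⟩ := lemA m hm H c h1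
    rw [Finset.mem_biUnion]
    refine ⟨val κ D H, mem_VV i1 ?_, ?_⟩
    · have := i2 false false
      omega
    · have h5 : (e : ℤ) ≤ 2 * K := by
        have := i3 false false
        omega
      have hm' : (1 : ℤ) ≤ m := by exact_mod_cast hm
      have h6 : |(4 * m * (q - val κ D H) : ℤ)| ≤ 4 * m * (2 * K + 1) := by
        have e1 : (4 * m * (q - val κ D H) : ℤ) =
          ((toL (TT m H) c).count true - 4 * m * val κ D H) -
            ((toL (TT m H) c).count true - 4 * m * q) := by ring
        rw [e1]
        refine (abs_sub _ _).trans ?_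
        have e2 : (4 * m * e : ℤ) ≤ 4 * m * (2 * K) := by
          apply mul_le_mul_of_nonneg_left h5 (by positivity)
        calc _ ≤ (4 * m * e : ℤ) + 4 * m := add_le_add i4 h3
          _ ≤ 4 * m * (2 * K) + 4 * m := by linarith
          _ = _ := by ring
      rw [abs_mul, abs_of_nonneg (by positivity : (0 : ℤ) ≤ 4 * m)] at h6
      have h7 := le_of_mul_le_mul_left h6 (by positivity)
      rw [abs_le] at h7
      rw [Finset.mem_Icc]
      constructor <;> linarith [h7.1, h7.2]
  have h2 := Finset.card_le_card h1
  rw [Finset.card_image_of_injective _ Nat.cast_injective, Finset.card_range] at h2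
  have h3 : ((VV H (8 * K)).biUnion fun v => Finset.Icc (v - (2 * K + 1)) (v + (2 * K + 1))).card ≤
      (VV H (8 * K)).card * (4 * K + 3) := by
    apply Finset.card_biUnion_le_card_mul
    intro v hv
    rw [Int.card_Icc]
    omega
  have h4 := VV_card H (8 * K)
  have h5 : (VV H (8 * K)).card * (4 * K + 3) ≤ 2 * (2 * H + 1) ^ (8 * K) * (4 * K + 3) :=
    Nat.mul_le_mul_right _ h4
  omega

end Pool.Agent.W2helper55.CRP
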