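import Pool.Agent.W2helper55.CRP.Sys

/-!
# Acceptance of the padded bracket words
-/

set_option autoImplicit false
set_option linter.all false

namespace Pool.Agent.W2helper55.CRP

open Relation

/-- the letters with their runs; `R` is the value of the block before the word -/
def blk : ℕ → List (Bool × YL) → List Gm
  | _, [] => []
  | R, t :: l => Gm.y t.1 t.2 :: (List.replicate (R + t.1.toNat - 1) Gm.c ++ blk (R + t.1.toNat) l)

/-- the stored differences after a sweep -/
def sw : Bool → List (Bool × YL) → List (Bool × YL)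
  | _, [] => []
  | b, t :: l => (b && t.1, t.2) :: sw (xor b t.1) l

lemma sw_letters : ∀ (b : Bool) (l : List (Bool × YL)), (sw b l).map Prod.snd = l.map Prod.snd
  | _, [] => rfl
  | b, t :: l => by simp [sw, sw_letters _ l]

/-- sum of the differences -/
def tot (l : List (Bool × YL)) : ℕ := (l.map fun t => t.1.toNat).sum

lemma tot_cons (t : Bool × YL) (l : List (Bool × YL)) : tot (t :: l) = t.1.toNat + tot l := rfl

lemma sw_tot : ∀ (b : Bool) (l : List (Bool × YL)), 2 * tot (sw b l) ≤ b.toNat + tot l
  | b, [] => by simp [sw, tot]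
  | b, t :: l => by
    have := sw_tot (xor b t.1) l
    rw [sw, tot_cons, tot_cons]
    obtain ⟨δ, y⟩ := t
    cases b <;> cases δ <;> simp at this ⊢ <;> omega

lemma Rws.rfl {Γ : Type} {R : List (List Γ × List Γ)} {u : List Γ} : Rws R u u :=
  ReflTransGen.refl

lemma Rws.tr {Γ : Type} {R : List (List Γ × List Γ)} {u v w : List Γ} (h : Rws R u v)
    (h' : Rws R v w) : Rws R u w := ReflTransGen.trans h h'

lemma rule_step {l r : List Gm} (h : Rule l r) (s : List Gm) : Rws RR (l ++ s) (r ++ s) :=
  Rws.rule (mem_RR.2 h) s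

lemma run_e (b : Bool) (X : List Gm) : ∀ k : ℕ,
    Rws RR (Gm.e b :: (List.replicate (2 * k) Gm.c ++ X)) (List.replicate k Gm.c ++ Gm.e b :: X)
  | 0 => by simpa using Rws.rfl
  | k + 1 => by
    have h1 : List.replicate (2 * (k + 1)) Gm.c = Gm.c :: Gm.c :: List.replicate (2 * k) Gm.c := by
      rw [show 2 * (k + 1) = 2 * k + 1 + 1 by ring]
      rfl
    rw [h1, List.replicate_succ]
    refine Rws.tr (rule_step (Rule.ecc b) (List.replicate (2 * k) Gm.c ++ X)) ?_
    exact (run_e b X k).cons Gm.c

lemma run_h (X : List Gm) : ∀ k : ℕ,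
    Rws RR (Gm.h :: (List.replicate (2 * k) Gm.c ++ X)) (List.replicate k Gm.c ++ Gm.h :: X)
  | 0 => by simpa using Rws.rfl
  | k + 1 => by
    have h1 : List.replicate (2 * (k + 1)) Gm.c = Gm.c :: Gm.c :: List.replicate (2 * k) Gm.c := by
      rw [show 2 * (k + 1) = 2 * k + 1 + 1 by ring]
      rfl
    rw [h1, List.replicate_succ]
    refine Rws.tr (rule_step Rule.hcc (List.replicate (2 * k) Gm.c ++ X)) ?_
    exact (run_h X k).cons Gm.c

lemma sweep_e : ∀ (l : List (Bool × YL)) (b : Bool) (k R : ℕ), 1 ≤ R →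
    Rws RR (Gm.e b :: (List.replicate (2 * k + b.toNat) Gm.c ++
      (blk (2 * R + b.toNat) l ++ [Gm.dl])))
      (List.replicate k Gm.c ++ (blk R (sw b l) ++ [Gm.dl]))
  | [], b, k, R, hR => by
    rw [List.replicate_add, List.append_assoc]
    refine (run_e b _ k).tr ?_
    have h1 : Rws RR (Gm.e b :: (List.replicate b.toNat Gm.c ++
        (blk (2 * R + b.toNat) [] ++ [Gm.dl]))) [Gm.dl] := by
      cases b
      · exact rule_step Rule.ed []
      · exact rule_step Rule.ecd []
    have h2 := h1.ctx (List.replicate k Gm.c) []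
    simpa [blk, sw] using h2
  | (δ, y) :: l, b, k, R, hR => by
    rw [List.replicate_add, List.append_assoc]
    refine (run_e b _ k).tr ?_
    have h1 : Rws RR (Gm.e b :: (List.replicate b.toNat Gm.c ++
        (blk (2 * R + b.toNat) ((δ, y) :: l) ++ [Gm.dl]))) (blk R (sw b ((δ, y) :: l)) ++ [Gm.dl])
        := by
      cases b with
      | false =>
        have e1 : blk (2 * R + false.toNat) ((δ, y) :: l) = Gm.y δ y :: Gm.c ::
            (List.replicate (2 * (R - 1) + δ.toNat) Gm.c ++ blk (2 * R + δ.toNat) l) := by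
          simp only [blk, Bool.toNat_false, add_zero]
          rw [show 2 * R + δ.toNat - 1 = (2 * (R - 1) + δ.toNat) + 1 by omega, List.replicate_succ]
          rfl
        rw [e1]
        refine Rws.tr (rule_step (Rule.ey δ y)
          (List.replicate (2 * (R - 1) + δ.toNat) Gm.c ++ blk (2 * R + δ.toNat) l ++ [Gm.dl])) ?_
        have h3 := (sweep_e l δ (R - 1) R hR).cons (Gm.y false y)
        simp only [sw, blk, Bool.false_and, Bool.false_xor, Bool.toNat_false, add_zero]
        simpa using h3
      | true =>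
        have e1 : blk (2 * R + true.toNat) ((δ, y) :: l) = Gm.y δ y :: Gm.c ::
            (List.replicate (2 * (R + δ.toNat - 1) + (!δ).toNat) Gm.c ++
              blk (2 * (R + δ.toNat) + (!δ).toNat) l) := by
          simp only [blk, Bool.toNat_true]
          have e2 : 2 * R + 1 + δ.toNat - 1 = (2 * (R + δ.toNat - 1) + (!δ).toNat) + 1 := by
            cases δ <;> simp <;> omega
          have e3 : 2 * R + 1 + δ.toNat = 2 * (R + δ.toNat) + (!δ).toNat := by
            cases δ <;> simp <;> omega
          rw [e2, e3, List.replicate_succ]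
          rfl
        rw [e1]
        refine Rws.tr (rule_step (Rule.ecy δ y)
          (List.replicate (2 * (R + δ.toNat - 1) + (!δ).toNat) Gm.c ++
              blk (2 * (R + δ.toNat) + (!δ).toNat) l ++ [Gm.dl])) ?_
        have h3 := (sweep_e l (!δ) (R + δ.toNat - 1) (R + δ.toNat) (by omega)).cons (Gm.y δ y)
        simp only [sw, blk, Bool.true_and, Bool.true_xor]
        simpa using h3
    have h2 := h1.ctx (List.replicate k Gm.c) []
    simpa using h2

lemma sweep_h (l : List (Bool × YL)) (hl : l ≠ []) (b : Bool) (k R : ℕ) (hR : 1 ≤ R) :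
    Rws RR (Gm.h :: (List.replicate (2 * k + b.toNat) Gm.c ++
      (blk (2 * R + b.toNat) l ++ [Gm.dl])))
      (List.replicate k Gm.c ++ (blk R (sw b l) ++ [Gm.dl])) := by
  obtain ⟨⟨δ, y⟩, l, rfl⟩ := List.exists_cons_of_ne_nil hl
  rw [List.replicate_add, List.append_assoc]
  refine (run_h _ k).tr ?_
  have h1 : Rws RR (Gm.h :: (List.replicate b.toNat Gm.c ++
      (blk (2 * R + b.toNat) ((δ, y) :: l) ++ [Gm.dl]))) (blk R (sw b ((δ, y) :: l)) ++ [Gm.dl])
      := by
    cases b with
    | false =>
      have e1 : blk (2 * R + false.toNat) ((δ, y) :: l) = Gm.y δ y :: Gm.c ::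
          (List.replicate (2 * (R - 1) + δ.toNat) Gm.c ++ blk (2 * R + δ.toNat) l) := by
        simp only [blk, Bool.toNat_false, add_zero]
        rw [show 2 * R + δ.toNat - 1 = (2 * (R - 1) + δ.toNat) + 1 by omega, List.replicate_succ]
        rfl
      rw [e1]
      refine Rws.tr (rule_step (Rule.hy δ y)
        (List.replicate (2 * (R - 1) + δ.toNat) Gm.c ++ blk (2 * R + δ.toNat) l ++ [Gm.dl])) ?_
      have h3 := (sweep_e l δ (R - 1) R hR).cons (Gm.y false y)
      simp only [sw, blk, Bool.false_and, Bool.false_xor, Bool.toNat_false, add_zero]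
      simpa using h3
    | true =>
      have e1 : blk (2 * R + true.toNat) ((δ, y) :: l) = Gm.y δ y :: Gm.c ::
          (List.replicate (2 * (R + δ.toNat - 1) + (!δ).toNat) Gm.c ++
            blk (2 * (R + δ.toNat) + (!δ).toNat) l) := by
        simp only [blk, Bool.toNat_true]
        have e2 : 2 * R + 1 + δ.toNat - 1 = (2 * (R + δ.toNat - 1) + (!δ).toNat) + 1 := by
          cases δ <;> simp <;> omega
        have e3 : 2 * R + 1 + δ.toNat = 2 * (R + δ.toNat) + (!δ).toNat := by
          cases δ <;> simp <;> omega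
        rw [e2, e3, List.replicate_succ]
        rfl
      rw [e1]
      refine Rws.tr (rule_step (Rule.hcy δ y)
        (List.replicate (2 * (R + δ.toNat - 1) + (!δ).toNat) Gm.c ++
            blk (2 * (R + δ.toNat) + (!δ).toNat) l ++ [Gm.dl])) ?_
      have h3 := (sweep_e l (!δ) (R + δ.toNat - 1) (R + δ.toNat) (by omega)).cons (Gm.y δ y)
      simp only [sw, blk, Bool.true_and, Bool.true_xor]
      simpa using h3
  have h2 := h1.ctx (List.replicate k Gm.c) []
  simpa using h2

/-- one round -/
lemma round (l : List (Bool × YL)) (hl : l ≠ []) (b : Bool) (R : ℕ) (hR : 2 ≤ R) :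
    Rws RR (Gm.g :: (List.replicate (2 * R + b.toNat - 2) Gm.c ++
      (blk (2 * R + b.toNat) l ++ [Gm.dl])))
      (Gm.g :: (List.replicate (R - 2) Gm.c ++ (blk R (sw b l) ++ [Gm.dl]))) := by
  rw [show 2 * R + b.toNat - 2 = (2 * (R - 2) + b.toNat) + 1 + 1 by omega, List.replicate_succ,
    List.replicate_succ]
  refine Rws.tr (rule_step Rule.gcc (List.replicate (2 * (R - 2) + b.toNat) Gm.c ++
      (blk (2 * R + b.toNat) l ++ [Gm.dl]))) ?_
  exact (sweep_h l hl b (R - 2) R (by omega)).cons Gm.g

/-- the opened brackets -/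
def PP (st : List Bool) : List Gm := (st.reverse).map Gm.O

lemma PP_cons (b : Bool) (st : List Bool) : PP (b :: st) = PP st ++ [Gm.O b] := by
  simp [PP]

lemma last_f : ∀ (l : List (Bool × YL)) (b : Bool) (s : SS) (st : List Bool),
    okr s st (l.map Prod.snd) → b.toNat + tot l ≤ 1 →
      Rws RR (PP st ++ Gm.f b s :: (blk (2 + b.toNat) l ++ [Gm.dl])) [Gm.F]
  | [], b, s, st, h, _ => by
    rcases s with _ | c | _ <;> simp only [List.map_nil, okr] at h
    subst h
    exact rule_step (Rule.fd b) []
  | (δ, y) :: l, b, s, st, h, hb => by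
    rw [tot_cons] at hb
    simp only at hb
    -- the transition
    have htr : ∃ o s' st', tr s y = some (o, s') ∧ okr s' st' (l.map Prod.snd) ∧
        ∀ X, Rws RR (PP st ++ (o ++ X)) (PP st' ++ X) := by
      rcases s with _ | c | _
      · rcases y with d | _ | _ | d <;> simp only [List.map_cons, okr] at h
        · exact ⟨[], _, st, rfl, h, fun X => Rws.rfl⟩
        · exact ⟨[], _, st, rfl, h, fun X => Rws.rfl⟩
      · rcases y with d | _ | _ | d <;> simp only [List.map_cons, okr] at h
        refine ⟨[Gm.O c], _, c :: st, rfl, h, fun X => ?_⟩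
        rw [PP_cons, List.append_assoc]
        exact Rws.rfl
      · cases st with
        | nil => rcases y with d | _ | _ | d <;> simp [okr] at h
        | cons a st =>
          rcases y with d | _ | _ | d <;> simp only [List.map_cons, okr] at h
          obtain ⟨rfl, h⟩ := h
          refine ⟨[Gm.C a], _, st, rfl, h, fun X => ?_⟩
          have := (rule_step (Rule.OC a) X).ctx (PP st) []
          rw [PP_cons]
          simpa using this
    obtain ⟨o, s', st', h1, h2, h3⟩ := htr
    have hfin : ∀ b' : Bool, b'.toNat + tot l ≤ 1 →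
        Rws RR (PP st ++ (Gm.f b s :: (blk (2 + b.toNat) ((δ, y) :: l) ++ [Gm.dl])))
          (PP st ++ (o ++ [Gm.f b' s'] ++ (blk (2 + b'.toNat) l ++ [Gm.dl]))) →
        Rws RR (PP st ++ Gm.f b s :: (blk (2 + b.toNat) ((δ, y) :: l) ++ [Gm.dl])) [Gm.F] := by
      intro b' hb' h4
      refine h4.tr ?_
      rw [List.append_assoc]
      refine (h3 _).tr ?_
      exact last_f l b' s' st' h2 hb'
    cases b with
    | false =>
      cases δ with
      | false =>
        refine hfin false (by simpa using hb) ?_
        have := (rule_step (Rule.f00 s y o s' h1) (blk (2 + false.toNat) l ++ [Gm.dl])).ctx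
          (PP st) []
        simpa [blk] using this
      | true =>
        refine hfin true (by simpa using hb) ?_
        have := (rule_step (Rule.f01 s y o s' h1) (blk (2 + true.toNat) l ++ [Gm.dl])).ctx
          (PP st) []
        simpa [blk, List.replicate_succ] using this
    | true =>
      cases δ with
      | false =>
        refine hfin true (by simpa using hb) ?_
        have := (rule_step (Rule.f10 s y o s' h1) (blk (2 + true.toNat) l ++ [Gm.dl])).ctx
          (PP st) []
        simpa [blk, List.replicate_succ] using this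
      | true => simp at hb

/-- the last round -/
lemma last_round (l : List (Bool × YL)) (hl : l ≠ []) (b : Bool)
    (h : okr SS.n [] (l.map Prod.snd)) (hb : b.toNat + tot l ≤ 1) :
    Rws RR (Gm.g :: (List.replicate b.toNat Gm.c ++ (blk (2 + b.toNat) l ++ [Gm.dl]))) [Gm.Y] := by
  obtain ⟨⟨δ, y⟩, l, rfl⟩ := List.exists_cons_of_ne_nil hl
  rw [tot_cons] at hb
  simp only at hb
  have htr : ∃ s', tr SS.n y = some ([], s') ∧ okr s' [] (l.map Prod.snd) := by
    rcases y with d | _ | _ | d <;> simp only [List.map_cons, okr] at h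
    all_goals exact ⟨_, rfl, h⟩
  obtain ⟨s', h1, h2⟩ := htr
  have hfin : ∀ b' : Bool, b'.toNat + tot l ≤ 1 →
      Rws RR (Gm.g :: (List.replicate b.toNat Gm.c ++
        (blk (2 + b.toNat) ((δ, y) :: l) ++ [Gm.dl])))
        ([Gm.Gd, Gm.f b' s'] ++ (blk (2 + b'.toNat) l ++ [Gm.dl])) →
      Rws RR (Gm.g :: (List.replicate b.toNat Gm.c ++
        (blk (2 + b.toNat) ((δ, y) :: l) ++ [Gm.dl]))) [Gm.Y] := by
    intro b' hb' h4
    refine h4.tr ?_
    have h5 := (last_f l b' s' [] h2 hb').cons Gm.Gd
    exact Rws.tr h5 (rule_step Rule.GF [])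
  cases b with
  | false =>
    cases δ with
    | false =>
      refine hfin false (by simpa using hb) ?_
      have := rule_step (Rule.g00 y s' h1) (blk (2 + false.toNat) l ++ [Gm.dl])
      simpa [blk] using this
    | true =>
      refine hfin true (by simpa using hb) ?_
      have := rule_step (Rule.g01 y s' h1) (blk (2 + true.toNat) l ++ [Gm.dl])
      simpa [blk, List.replicate_succ] using this
  | true =>
    cases δ with
    | false =>
      refine hfin true (by simpa using hb) ?_
      have := rule_step (Rule.g10 y s' h1) (blk (2 + true.toNat) l ++ [Gm.dl])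
      simpa [blk, List.replicate_succ] using this
    | true => simp at hb

lemma sw_ne {b : Bool} {l : List (Bool × YL)} (hl : l ≠ []) : sw b l ≠ [] := by
  cases l with
  | nil => exact absurd rfl hl
  | cons a l => simp [sw]

/-- acceptance -/
theorem accept : ∀ (q : ℕ) (l : List (Bool × YL)) (R : ℕ), l ≠ [] →
    okr SS.n [] (l.map Prod.snd) → 2 ^ (q + 1) ≤ R → R + tot l < 2 ^ (q + 2) →
      Rws RR (Gm.g :: (List.replicate (R - 2) Gm.c ++ (blk R l ++ [Gm.dl]))) [Gm.Y]
  | 0, l, R, hl, h, h1, h2 => by
    simp only [zero_add, pow_one] at h1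
    norm_num at h2
    obtain ⟨b, hb⟩ : ∃ b : Bool, R = 2 + b.toNat := by
      rcases Nat.lt_or_ge R 3 with h3 | h3
      · exact ⟨false, by simp; omega⟩
      · exact ⟨true, by simp; omega⟩
    subst hb
    have := last_round l hl b h (by omega)
    simpa using this
  | q + 1, l, R, hl, h, h1, h2 => by
    obtain ⟨R', b, hb⟩ : ∃ (R' : ℕ) (b : Bool), R = 2 * R' + b.toNat := by
      rcases Nat.even_or_odd' R with ⟨R', h3 | h3⟩
      · exact ⟨R', false, by simpa using h3⟩
      · exact ⟨R', true, by simpa using h3⟩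
    subst hb
    have e1 : 2 ^ (q + 1 + 1) = 2 * 2 ^ (q + 1) := by ring
    have e2 : 2 ^ (q + 1 + 2) = 2 * 2 ^ (q + 2) := by ring
    have e3 : b.toNat ≤ 1 := Bool.toNat_le b
    have e4 := sw_tot b l
    have e5 : 2 ≤ 2 ^ (q + 1) := by
      rw [pow_succ]
      have := Nat.one_le_two_pow (n := q)
      omega
    refine (round l hl b R' (by omega)).tr ?_
    exact accept q (sw b l) R' (sw_ne hl) (by rw [sw_letters]; exact h) (by omega) (by omega)

end Pool.Agent.W2helper55.CRP
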