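import Mathlib

/-!
# Church-Rosser languages and programmed grammars
-/

set_option autoImplicit false
set_option linter.all false

namespace Pool.Agent.W2helper55.CRP

open Relation

/-- one rewriting step of the string-rewriting system `R` -/
inductive Rw {Γ : Type} (R : List (List Γ × List Γ)) : List Γ → List Γ → Prop
  | mk (p s l r : List Γ) (h : (l, r) ∈ R) : Rw R (p ++ l ++ s) (p ++ r ++ s)

/-- the reduction relation of the string-rewriting system `R` -/
def Rws {Γ : Type} (R : List (List Γ × List Γ)) : List Γ → List Γ → Prop := ReflTransGen (Rw R)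

/-- `L` is a Church-Rosser language over the alphabet `S` -/
def IsCRL {S : Type} (L : Set (List S)) : Prop :=
  ∃ (Γ : Type) (ι : S → Γ) (R : List (List Γ × List Γ)) (t₁ t₂ : List Γ) (Y : Γ),
    Finite Γ ∧ Function.Injective ι ∧
    (∀ p ∈ R, p.2.length < p.1.length) ∧
    (∀ u v w, Rws R u v → Rws R u w → ∃ z, Rws R v z ∧ Rws R w z) ∧
    (∀ x ∈ t₁, x ∉ Set.range ι) ∧ (∀ x ∈ t₂, x ∉ Set.range ι) ∧ Y ∉ Set.range ι ∧
    (∀ u, ¬ Rw R t₁ u) ∧ (∀ u, ¬ Rw R t₂ u) ∧ (∀ u, ¬ Rw R [Y] u) ∧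
    ∀ w : List S, Rws R (t₁ ++ w.map ι ++ t₂) [Y] ↔ w ∈ L

/-- a programmed grammar with terminal alphabet `T`: the rule with label `r` is
`(r : lhs r → rhs r, succ r, fail r)` -/
structure PGram (T : Type) where
  /-- nonterminals -/
  N : Type
  /-- labels -/
  Lb : Type
  finN : Finite N
  finL : Finite Lb
  /-- start symbol -/
  S : N
  lhs : Lb → N
  rhs : Lb → List (N ⊕ T)
  succ : Lb → Set Lb
  fail : Lb → Set Lb

variable {T : Type}

/-- one step of a programmed grammar -/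
inductive PGram.Step (G : PGram T) :
    List (G.N ⊕ T) × G.Lb → List (G.N ⊕ T) × G.Lb → Prop
  | app (x₁ x₂ : List (G.N ⊕ T)) (r r' : G.Lb) (h : r' ∈ G.succ r) :
      Step G (x₁ ++ Sum.inl (G.lhs r) :: x₂, r) (x₁ ++ G.rhs r ++ x₂, r')
  | chk (x : List (G.N ⊕ T)) (r r' : G.Lb) (h : Sum.inl (G.lhs r) ∉ x) (h' : r' ∈ G.fail r) :
      Step G (x, r) (x, r')

/-- the generated language -/
def PGram.lang (G : PGram T) : Set (List T) :=
  {z | ∃ r r' : G.Lb, ReflTransGen G.Step ([Sum.inl G.S], r) (z.map Sum.inr, r')}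

/-- no erasing rules -/
def PGram.NonErasing (G : PGram T) : Prop := ∀ r, G.rhs r ≠ []

end Pool.Agent.W2helper55.CRP
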