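import Pool.Agent.W2helper55.CRP.Rig

/-!
# Letter sequences: bracket words, shapes, covers
-/

set_option autoImplicit false
set_option linter.all false

namespace Pool.Agent.W2helper55.CRP

/-- the letters: an opening bracket is `op b, p`, a closing bracket is `q, cl b` -/
inductive YL
  | op (b : Bool)
  | p
  | q
  | cl (b : Bool)
  deriving DecidableEq, Fintype

/-- states of the parser -/
inductive SS
  | n
  | o (b : Bool)
  | k
  deriving DecidableEq, Fintype

/-- the bracket words -/
def okr : SS → List Bool → List YL → Prop
  | SS.n, st, [] => st = []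
  | SS.n, st, YL.op b :: l => okr (SS.o b) st l
  | SS.n, st, YL.q :: l => okr SS.k st l
  | SS.o b, st, YL.p :: l => okr SS.n (b :: st) l
  | SS.k, b :: st, YL.cl b' :: l => b = b' ∧ okr SS.n st l
  | _, _, _ => False

lemma okr_adj (A C : List YL) (x : YL) : ∀ (s : SS) (st : List Bool),
    ¬ okr s st (A ++ x :: x :: C) := by
  induction A with
  | nil =>
    intro s st h
    rcases s with _ | b | _ <;> rcases x with b' | _ | _ | b' <;> (try cases st) <;>
      simp [okr] at h
  | cons a A ih =>
    intro s st h
    rcases s with _ | b | _ <;> rcases a with b' | _ | _ | b' <;> (try cases st) <;>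
      simp only [List.cons_append, okr] at h
    all_goals first | exact ih _ _ h | exact ih _ _ h.2

/-- the same letters up to the types of the opening brackets -/
def relOp (a a' : YL) : Prop := a = a' ∨ ∃ b b', a = YL.op b ∧ a' = YL.op b'

/-- similar states -/
def relS : SS → SS → Prop
  | SS.n, SS.n => True
  | SS.k, SS.k => True
  | SS.o _, SS.o _ => True
  | _, _ => False

lemma okr_unique {l l' : List YL} (h : List.Forall₂ relOp l l') : ∀ (s s' : SS)
    (st st' : List Bool), relS s s' → st.length = st'.length → okr s st l → okr s' st' l' →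
      s = s' ∧ st = st' ∧ l = l' := by
  induction h with
  | nil =>
    intro s s' st st' hs hl h1 h2
    rcases s with _ | b | _ <;> rcases s' with _ | b' | _ <;> (try cases st) <;> (try cases st') <;>
      simp_all [okr, relS]
  | @cons a a' l l' ha hl ih =>
    intro s s' st st' hs hlen h1 h2
    rcases ha with rfl | ⟨b, b', rfl, rfl⟩
    · rcases a with c | _ | _ | c <;> rcases s with _ | d | _ <;> rcases s' with _ | d' | _ <;>
        simp only [relS] at hs <;> (try simp only [okr] at h1 h2)
      · obtain ⟨h3, h4, h5⟩ := ih (SS.o c) (SS.o c) st st' trivial hlen h1 h2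
        exact ⟨rfl, h4, by rw [h5]⟩
      · obtain ⟨h3, h4, h5⟩ := ih SS.n SS.n _ _ trivial (by simp [hlen]) h1 h2
        simp only [List.cons.injEq] at h4
        exact ⟨by rw [h4.1], h4.2, by rw [h5]⟩
      · obtain ⟨h3, h4, h5⟩ := ih SS.k SS.k st st' trivial hlen h1 h2
        exact ⟨rfl, h4, by rw [h5]⟩
      · cases st with
        | nil => simp [okr] at h1
        | cons e st =>
          cases st' with
          | nil => simp [okr] at h2
          | cons e' st' =>
            simp only [okr] at h1 h2
            obtain ⟨h3, h4, h5⟩ := ih SS.n SS.n st st' trivial (by simpa using hlen) h1.2 h2.2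
            exact ⟨rfl, by rw [h1.1, h2.1, h4], by rw [h5]⟩
    · rcases s with _ | d | _ <;> rcases s' with _ | d' | _ <;> simp only [relS] at hs <;>
        (try simp only [okr] at h1 h2)
      obtain ⟨h3, h4, h5⟩ := ih (SS.o b) (SS.o b') st st' trivial hlen h1 h2
      simp only [SS.o.injEq] at h3
      exact ⟨rfl, h4, by rw [h3, h5]⟩

lemma relOp_refl (l : List YL) : List.Forall₂ relOp l l := by
  induction l with
  | nil => exact List.Forall₂.nil
  | cons a l ih => exact List.Forall₂.cons (Or.inl rfl) ih

lemma okr_swap (A B C : List YL) (x y : YL) : ∀ (s : SS) (st : List Bool),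
    okr s st (A ++ x :: (B ++ y :: C)) → okr s st (A ++ y :: (B ++ x :: C)) → x = y := by
  induction A with
  | nil =>
    intro s st h1 h2
    rcases s with _ | b | _
    · rcases x with c | _ | _ | c <;> rcases y with d | _ | _ | d <;>
        simp only [List.nil_append, okr] at h1 h2
      · have h3 : List.Forall₂ relOp (YL.op c :: (B ++ YL.op d :: C))
            (YL.op d :: (B ++ YL.op c :: C)) := by
          refine List.Forall₂.cons (Or.inr ⟨_, _, rfl, rfl⟩) ?_
          refine List.rel_append (relOp_refl B) ?_
          exact List.Forall₂.cons (Or.inr ⟨_, _, rfl, rfl⟩) (relOp_refl C)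
        have h4 := (okr_unique h3 SS.n SS.n st st trivial rfl (by simpa only [okr] using h1)
          (by simpa only [okr] using h2)).2.2
        simp only [List.cons.injEq] at h4
        exact h4.1
      · exfalso
        cases B with
        | nil => simp [okr] at h1
        | cons e B =>
          rcases e with e | _ | _ | e <;> (try cases st) <;> simp [okr] at h1 h2
      · exfalso
        cases B with
        | nil => simp [okr] at h2
        | cons e B =>
          rcases e with e | _ | _ | e <;> (try cases st) <;> simp [okr] at h1 h2
      · rfl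
    · rcases x with c | _ | _ | c <;> rcases y with d | _ | _ | d <;>
        simp_all [okr]
    · cases st with
      | nil => rcases x with c | _ | _ | c <;> simp [okr] at h1
      | cons e st =>
        rcases x with c | _ | _ | c <;> rcases y with d | _ | _ | d <;>
          simp only [List.nil_append, okr] at h1 h2
        rw [← h1.1, ← h2.1]
  | cons a A ih =>
    intro s st h1 h2
    rcases s with _ | b | _ <;> rcases a with b' | _ | _ | b' <;> (try cases st) <;>
      simp only [List.cons_append, okr] at h1 h2
    all_goals first | exact ih _ _ h1 h2 | exact ih _ _ h1.2 h2.2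

/-- valid letter sequences -/
def Okl (l : List YL) : Prop := okr SS.n [] l

theorem letRig : LetRig Okl :=
  ⟨fun A B C x y => okr_swap A B C x y SS.n [], fun A C x => okr_adj A C x SS.n []⟩

/-! ### shapes -/

/-- shapes of bracket words -/
inductive Sh
  | nil
  | nest (d : Sh)
  | cat (d e : Sh)

/-- the bracket pairs of a shape -/
def PI : Sh → Type
  | Sh.nil => Empty
  | Sh.nest d => Option (PI d)
  | Sh.cat d e => PI d ⊕ PI e

noncomputable instance PI.fintype : (s : Sh) → Fintype (PI s)
  | Sh.nil => inferInstanceAs (Fintype Empty)
  | Sh.nest d => @instFintypeOption _ (PI.fintype d)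
  | Sh.cat d e => @instFintypeSum _ _ (PI.fintype d) (PI.fintype e)

/-- the letter sequence with opening brackets of types `f`, closing brackets of types `g` -/
def word : (s : Sh) → (PI s → Bool) → (PI s → Bool) → List YL
  | Sh.nil, _, _ => []
  | Sh.nest d, f, g => YL.op (f none) :: YL.p ::
      (word d (fun p => f (some p)) (fun p => g (some p)) ++ [YL.q, YL.cl (g none)])
  | Sh.cat d e, f, g => word d (fun p => f (Sum.inl p)) (fun p => g (Sum.inl p)) ++
      word e (fun p => f (Sum.inr p)) (fun p => g (Sum.inr p))

/-- number of letters -/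
def len : Sh → ℕ
  | Sh.nil => 0
  | Sh.nest d => len d + 4
  | Sh.cat d e => len d + len e

lemma word_length : ∀ (s : Sh) (f g : PI s → Bool), (word s f g).length = len s
  | Sh.nil, _, _ => rfl
  | Sh.nest d, f, g => by
    simp [word, len, word_length d]
  | Sh.cat d e, f, g => by
    simp [word, len, word_length d, word_length e]

lemma okr_word : ∀ (s : Sh) (f g : PI s → Bool) (st : List Bool) (l : List YL),
    okr SS.n st (word s f g ++ l) ↔ f = g ∧ okr SS.n st l
  | Sh.nil, f, g, st, l => by
    have : f = g := funext fun x => x.elim
    simp [word, this]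
  | Sh.nest d, f, g, st, l => by
    have h := okr_word d (fun p => f (some p)) (fun p => g (some p)) (f none :: st)
      (YL.q :: YL.cl (g none) :: l)
    simp only [word, List.cons_append, okr, List.append_assoc, List.nil_append]
    rw [h]
    simp only [okr]
    constructor
    · rintro ⟨h1, h2, h3⟩
      refine ⟨funext fun x => ?_, h3⟩
      cases x with
      | none => exact h2
      | some x => exact congrFun h1 x
    · rintro ⟨rfl, h3⟩
      exact ⟨rfl, rfl, h3⟩
  | Sh.cat d e, f, g, st, l => by
    simp only [word, List.append_assoc]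
    rw [okr_word d, okr_word e]
    constructor
    · rintro ⟨h1, h2, h3⟩
      refine ⟨funext fun x => ?_, h3⟩
      cases x with
      | inl x => exact congrFun h1 x
      | inr x => exact congrFun h2 x
    · rintro ⟨rfl, h3⟩
      exact ⟨rfl, rfl, h3⟩

lemma Okl_word (s : Sh) (f g : PI s → Bool) : Okl (word s f g) ↔ f = g := by
  have := okr_word s f g [] []
  rw [List.append_nil] at this
  unfold Okl
  rw [this]
  simp [okr]

/-! ### covers -/

/-- a colouring of the letters -/
def Cov : Sh → Type
  | Sh.nil => Unit
  | Sh.nest d => (Bool × Bool) × Cov d × (Bool × Bool)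
  | Sh.cat d e => Cov d × Cov e

/-- the colours in their order -/
def toL : (s : Sh) → Cov s → List Bool
  | Sh.nil, _ => []
  | Sh.nest d, c => c.1.1 :: c.1.2 :: (toL d c.2.1 ++ [c.2.2.1, c.2.2.2])
  | Sh.cat d e, c => toL d c.1 ++ toL e c.2

/-- colours of the opening letters -/
def cO : (s : Sh) → Cov s → PI s → Bool
  | Sh.nil, _ => fun x => x.elim
  | Sh.nest d, c => fun x => Option.casesOn x c.1.1 (cO d c.2.1)
  | Sh.cat d e, c => Sum.elim (cO d c.1) (cO e c.2)

/-- colours of the closing letters -/
def cC : (s : Sh) → Cov s → PI s → Bool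
  | Sh.nil, _ => fun x => x.elim
  | Sh.nest d, c => fun x => Option.casesOn x c.2.2.2 (cC d c.2.1)
  | Sh.cat d e, c => Sum.elim (cC d c.1) (cC e c.2)

lemma toL_length : ∀ (s : Sh) (c : Cov s), (toL s c).length = len s
  | Sh.nil, _ => rfl
  | Sh.nest d, c => by simp [toL, len, toL_length d]
  | Sh.cat d e, c => by simp [toL, len, toL_length d, toL_length e]

lemma exists_cov : ∀ (s : Sh) (l : List Bool), l.length = len s → ∃ c, toL s c = l
  | Sh.nil, l, h => ⟨(), (List.length_eq_zero_iff.1 h).symm⟩
  | Sh.nest d, l, h => by
    match l, h with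
    | [], h => simp [len] at h
    | [a], h => simp [len] at h
    | a :: b :: l, h =>
      have h1 : l.length = len d + 2 := by
        simp only [List.length_cons, len] at h; omega
      obtain ⟨c, hc⟩ := exists_cov d (l.take (len d)) (by rw [List.length_take]; omega)
      have h2 : (l.drop (len d)).length = 2 := by rw [List.length_drop]; omega
      match hl : l.drop (len d), h2 with
      | [x, y], _ =>
        refine ⟨((a, b), c, (x, y)), ?_⟩
        simp only [toL]
        rw [hc, ← hl, List.take_append_drop]
  | Sh.cat d e, l, h => by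
    obtain ⟨c, hc⟩ := exists_cov d (l.take (len d)) (by
      rw [List.length_take]; simp only [len] at h; omega)
    obtain ⟨c', hc'⟩ := exists_cov e (l.drop (len d)) (by
      rw [List.length_drop]; simp only [len] at h; omega)
    exact ⟨(c, c'), by simp only [toL]; rw [hc, hc', List.take_append_drop]⟩

/-- mix two letter sequences -/
def mix : List Bool → List YL → List YL → List YL
  | b :: bs, x :: xs, y :: ys => (if b then y else x) :: mix bs xs ys
  | _, _, _ => []

lemma mix_append : ∀ (b : List Bool) (x y : List YL) (b' : List Bool) (x' y' : List YL),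
    b.length = x.length → b.length = y.length →
      mix (b ++ b') (x ++ x') (y ++ y') = mix b x y ++ mix b' x' y'
  | [], [], [], _, _, _, _, _ => rfl
  | b :: bs, x :: xs, y :: ys, b', x', y', h1, h2 => by
    simp only [List.cons_append, mix]
    rw [mix_append bs xs ys b' x' y' (by simpa using h1) (by simpa using h2)]
  | [], _ :: _, _, _, _, _, h1, _ => by simp at h1
  | [], [], _ :: _, _, _, _, _, h2 => by simp at h2
  | _ :: _, [], _, _, _, _, h1, _ => by simp at h1
  | _ :: _, _ :: _, [], _, _, _, _, h2 => by simp at h2

lemma op_ite (b x y : Bool) : (if b = true then YL.op x else YL.op y) =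
    YL.op (if b = true then x else y) := by cases b <;> rfl

lemma cl_ite (b x y : Bool) : (if b = true then YL.cl x else YL.cl y) =
    YL.cl (if b = true then x else y) := by cases b <;> rfl

lemma mix_word : ∀ (s : Sh) (c : Cov s) (f g f' g' : PI s → Bool),
    mix (toL s c) (word s f g) (word s f' g') =
      word s (fun p => if cO s c p then f' p else f p) (fun p => if cC s c p then g' p else g p)
  | Sh.nil, c, f, g, f', g' => rfl
  | Sh.nest d, c, f, g, f', g' => by
    simp only [toL, word, mix]
    rw [mix_append _ _ _ _ _ _ (by rw [toL_length, word_length]) (by rw [toL_length, word_length]),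
      mix_word d]
    simp only [mix, cO, cC, ite_self]
    exact congrArg₂ List.cons (op_ite _ _ _) (congrArg (List.cons YL.p)
      (congrArg (HAppend.hAppend _) (congrArg (fun z => [YL.q, z]) (cl_ite _ _ _))))
  | Sh.cat d e, c, f, g, f', g' => by
    simp only [toL, word]
    rw [mix_append _ _ _ _ _ _ (by rw [toL_length, word_length]) (by rw [toL_length, word_length]),
      mix_word d, mix_word e]
    rfl

/-- the number of the pairs with different colours -/
def sepN : (s : Sh) → Cov s → ℕ
  | Sh.nil, _ => 0
  | Sh.nest d, c => (if c.1.1 = c.2.2.2 then 0 else 1) + sepN d c.2.1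
  | Sh.cat d e, c => sepN d c.1 + sepN e c.2

lemma card_sep : ∀ (s : Sh) (c : Cov s),
    (∑ p : PI s, if cO s c p ≠ cC s c p then 1 else 0) = sepN s c
  | Sh.nil, c => rfl
  | Sh.nest d, c => by
    have h := card_sep d c.2.1
    rw [sepN, ← h]
    have h1 := Fintype.sum_option (α := PI d)
      (fun p => if cO (Sh.nest d) c p ≠ cC (Sh.nest d) c p then 1 else 0)
    refine h1.trans ?_
    congr 1
    show (if c.1.1 ≠ c.2.2.2 then 1 else 0) = _
    by_cases h2 : c.1.1 = c.2.2.2 <;> simp [h2]
  | Sh.cat d e, c => by
    have h := card_sep d c.1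
    have h' := card_sep e c.2
    rw [sepN, ← h, ← h']
    exact Fintype.sum_sum_type (α₁ := PI d) (α₂ := PI e)
      (fun p => if cO (Sh.cat d e) c p ≠ cC (Sh.cat d e) c p then 1 else 0)

/-- separated pairs of two compatible sequences have the same types -/
lemma agree {s : Sh} {c : Cov s} {f f' : PI s → Bool}
    (h : Okl (mix (toL s c) (word s f f) (word s f' f'))) :
    ∀ p, cO s c p ≠ cC s c p → f p = f' p := by
  rw [mix_word, Okl_word] at h
  intro p hp
  have h1 := congrFun h p
  revert h1 hp
  cases cO s c p <;> cases cC s c p <;> simp <;> intro h <;> rw [h]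

end Pool.Agent.W2helper55.CRP
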