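import Pool.Agent.W2helper55.CRP.LB

/-!
# The lower bound, counting
-/

set_option autoImplicit false
set_option linter.all false

namespace Pool.Agent.W2helper55.CRP

open Relation

variable {T : Type} {lt : T → Option YL} {G : PGram T}

/-- many words -/
def HF (lt : T → Option YL) (G : PGram T) : Prop :=
  ∀ H : ℕ, ∃ B : ℕ, ∀ m : ℕ, 1 ≤ m → ∀ τ : PI (TT m H) → Bool, ∃ w ∈ G.lang,
    lets lt w = word (TT m H) τ τ ∧ w.length ≤ B * m ^ 2

lemma len_nestN (m : ℕ) (d : Sh) : len (nestN m d) = 4 * m + len d := by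
  induction m with
  | zero => simp [nestN]
  | succ m ih => simp only [nestN, len, ih]; ring

lemma len_TT (m h : ℕ) : len (TT m h) + 4 * m = 4 * m * 2 ^ (h + 1) := by
  induction h with
  | zero => simp only [TT, len_nestN, len]; ring
  | succ h ih =>
    simp only [TT, len_nestN, len]
    rw [pow_succ]
    linarith

lemma exists_m (L K B ρ : ℕ) : ∃ m : ℕ, 1 ≤ m ∧ ρ ≤ 4 * m ∧
    L * (8 * (B * m ^ 2 + 1) ^ 3) ^ K < 2 ^ m := by
  have h1 := tendsto_pow_const_div_const_pow_of_one_lt (6 * K) (r := (2 : ℝ)) (by norm_num)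
  have h2 : (0 : ℝ) < 1 / ((L + 1) * (8 * (B + 1) ^ 3) ^ K) := by positivity
  obtain ⟨m, hm, hm1⟩ := ((h1.eventually_lt_const h2).and
    (Filter.eventually_ge_atTop (ρ + 1))).exists
  refine ⟨m, by omega, by omega, ?_⟩
  rw [div_lt_div_iff₀ (by positivity) (by positivity)] at hm
  have h3 : ((L * (8 * (B * m ^ 2 + 1) ^ 3) ^ K : ℕ) : ℝ) < ((2 ^ m : ℕ) : ℝ) := by
    have h4 : B * m ^ 2 + 1 ≤ (B + 1) * m ^ 2 := by
      have : 1 ≤ m ^ 2 := Nat.one_le_pow _ _ (by omega)
      nlinarith
    have h5 : L * (8 * (B * m ^ 2 + 1) ^ 3) ^ K ≤ (L + 1) * (8 * ((B + 1) * m ^ 2) ^ 3) ^ K := by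
      gcongr
      omega
    have h6 : ((L * (8 * (B * m ^ 2 + 1) ^ 3) ^ K : ℕ) : ℝ) ≤
        (((L + 1) * (8 * ((B + 1) * m ^ 2) ^ 3) ^ K : ℕ) : ℝ) := by exact_mod_cast h5
    refine lt_of_le_of_lt h6 ?_
    push_cast
    calc ((L + 1) * (8 * ((B + 1) * (m : ℝ) ^ 2) ^ 3) ^ K : ℝ)
        = (m : ℝ) ^ (6 * K) * ((L + 1) * (8 * (B + 1) ^ 3) ^ K) := by
          rw [show (8 * ((B + 1) * (m : ℝ) ^ 2) ^ 3 : ℝ) = (m : ℝ) ^ 6 * (8 * (B + 1) ^ 3) by ring,
            mul_pow, ← pow_mul]
          ring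
      _ < 1 * 2 ^ m := hm
      _ = 2 ^ m := one_mul _
  exact_mod_cast h3

lemma ofNat_inj {n a b : ℕ} (ha : a ≤ n) (hb : b ≤ n) (h : Fin.ofNat (n + 1) a = Fin.ofNat (n + 1) b) :
    a = b := by
  have h1 := congrArg Fin.val h
  simp only [Fin.ofNat] at h1
  rwa [Nat.mod_eq_of_lt (by omega), Nat.mod_eq_of_lt (by omega)] at h1

lemma yl_le (u : List T) : yl lt u ≤ u.length := List.length_filterMap_le _ _

lemma key1_le {X : List (AI G)} {A : G.N} {t : ℕ × ℕ × Option YL} (h : key1 lt A 0 X = some t) :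
    t.1 ≤ (Fl X).length ∧ t.2.1 ≤ (Fl X).length := by
  by_cases hA : ∃ u, (Sum.inl (A, u) : AI G) ∈ X
  · obtain ⟨X₁, u, X₂, rfl, h2⟩ := key1_some (lt := lt) A X 0 hA
    rw [h2] at h
    simp only [Option.some.injEq] at h
    subst h
    have h3 := yl_le (lt := lt) (Fl X₁)
    have h4 := yl_le (lt := lt) u
    simp only [Fl_append, Fl_inl, List.length_append]
    omega
  · rw [key1_none A X 0 hA] at h
    simp at h

/-- functions which agree with `τ₀` on `S` -/
lemma card_agree {ι : Type} [Fintype ι] [DecidableEq ι] (S : Finset ι) (τ₀ : ι → Bool)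
    (F : Finset (ι → Bool)) (hF : ∀ τ ∈ F, ∀ p ∈ S, τ p = τ₀ p) :
    F.card ≤ 2 ^ (Fintype.card ι - S.card) := by
  have h1 : F.card ≤ Fintype.card ({p : ι // p ∉ S} → Bool) := by
    rw [← Finset.card_univ]
    apply Finset.card_le_card_of_injOn (fun τ => fun p : {p : ι // p ∉ S} => τ p)
      (fun _ _ => Finset.mem_coe.2 (Finset.mem_univ _))
    intro τ hτ τ' hτ' h
    funext p
    by_cases hp : p ∈ S
    · rw [hF τ hτ p hp, hF τ' hτ' p hp]
    · exact congrFun h ⟨p, hp⟩
  rw [Fintype.card_fun, Fintype.card_bool, Fintype.card_subtype_compl, Fintype.card_coe] at h1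
  exact h1

/-- a language with the two properties is not generated by a non-erasing grammar -/
theorem no_gram (hG : G.NonErasing) (hS : HS lt G) (hF : HF lt G) : False := by
  classical
  haveI := G.finN
  haveI := G.finL
  letI : Fintype G.N := Fintype.ofFinite _
  letI : Fintype G.Lb := Fintype.ofFinite _
  obtain ⟨ρ, hρ⟩ : ∃ ρ, ∀ r, (G.rhs r).length ≤ ρ :=
    ⟨Finset.univ.sup fun r => (G.rhs r).length, fun r =>
      Finset.le_sup (f := fun r => (G.rhs r).length) (Finset.mem_univ r)⟩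
  obtain ⟨H, hgap⟩ := exists_gap (Fintype.card G.N)
  obtain ⟨B, hB⟩ := hF H
  obtain ⟨m, hm1, hmρ, hmK⟩ := exists_m (Fintype.card G.Lb) (Fintype.card G.N) B ρ
  obtain ⟨q, hq, hgap⟩ := hgap m hm1
  have hw := hB m hm1
  choose w hwL hwl hwn using hw
  have hlen := len_TT m H
  -- the stages
  have hst : ∀ τ : PI (TT m H) → Bool, ∃ (Y : List (AI G)) (r : G.Lb), Stage (w τ) Y r ∧
      4 * m * q ≤ (cov lt Y).count true ∧ (cov lt Y).count true ≤ 4 * m * q + ρ := by
    intro τ
    obtain ⟨r, hr⟩ := exists_stage (hwL τ)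
    refine sweep hρ hr.ch (w τ) (4 * m * q) hr.reach hr.fl ?_
    have h1 : yl lt (w τ) = len (TT m H) := by
      rw [yl, hwl, word_length]
    have h3 : 2 * 1 ≤ 2 ^ (H + 1) := by
      rw [pow_succ]
      have := Nat.one_le_two_pow (n := H)
      omega
    have h4 : 4 * m * (q + 1) ≤ 4 * m * 2 ^ (H + 1) := Nat.mul_le_mul_left _ hq
    have h5 : 4 * m * 2 ≤ 4 * m * 2 ^ (H + 1) := Nat.mul_le_mul_left _ h3
    have h2 : 2 ≤ yl lt (w τ) := by omega
    rw [cov_inl, decide_eq_true h2, cov_nil, List.append_nil, List.count_replicate, h1]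
    simp only [beq_self_eq_true, if_true]
    have h6 : 4 * m * (q + 1) = 4 * m * q + 4 * m := by ring
    omega
  choose Y r hY hY1 hY2 using hst
  -- the covers
  have hcov : ∀ τ, ∃ c : Cov (TT m H), toL (TT m H) c = cov lt (Y τ) := by
    intro τ
    apply exists_cov
    rw [cov_length, (hY τ).fl, yl, hwl, word_length]
  choose c hc using hcov
  have hsep : ∀ τ, m ≤ sepN (TT m H) (c τ) := by
    intro τ
    by_contra h0
    refine hgap (c τ) (by omega) ?_ ?_
    · rw [hc]
      refine (bdc_cov (Y τ)).1.trans ?_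
      exact Nat.mul_le_mul_left _ (longs_nodup hG hS (hY τ)).length_le_card
    · rw [hc, abs_le]
      have e1 := hY1 τ
      have e2 := hY2 τ
      zify at e1 e2 hmρ
      constructor <;> linarith
  -- the key
  obtain ⟨n, hn⟩ : ∃ n, n = B * m ^ 2 := ⟨_, rfl⟩
  let κ : (PI (TT m H) → Bool) → G.Lb × (G.N → Fin (n + 1) × Option (Fin (n + 1) × Fin (n + 1) ×
    Option YL)) := fun τ => (r τ, fun A => (Fin.ofNat (n + 1) (((nts (Y τ)).map Prod.fst).count A),
      (key1 lt A 0 (Y τ)).map fun t => (Fin.ofNat (n + 1) t.1, Fin.ofNat (n + 1) t.2.1, t.2.2)))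
  have hn' : ∀ τ, (Fl (Y τ)).length ≤ n := by
    intro τ
    rw [(hY τ).fl, hn]
    exact hwn τ
  have hagree : ∀ τ τ', κ τ = κ τ' → ∀ p, cO _ (c τ) p ≠ cC _ (c τ) p → τ p = τ' p := by
    intro τ τ' hκ
    have hr : r τ = r τ' := congrArg Prod.fst hκ
    have hκ2 := fun A => congrFun (congrArg Prod.snd hκ) A
    have hcount : (nts (Y τ')).map Prod.fst = (nts (Y τ)).map Prod.fst := by
      ext A
      have h1 := congrArg Prod.fst (hκ2 A)
      have h2 : ∀ τ, ((nts (Y τ)).map Prod.fst).count A ≤ n := by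
        intro τ
        refine (Multiset.count_le_card _ _).trans ?_
        rw [Multiset.card_map]
        exact (nts_card_le hG ((hY τ).ch.ne_nil hG)).trans (hn' τ)
      exact (ofNat_inj (h2 τ) (h2 τ') h1).symm
    have hkey : ∀ A : G.N, key1 lt A 0 (Y τ) = key1 lt A 0 (Y τ') := by
      intro A
      have h1 := congrArg Prod.snd (hκ2 A)
      simp only [κ] at h1
      cases h2 : key1 lt A 0 (Y τ) with
      | none =>
        rw [h2] at h1
        simp only [Option.map_none] at h1
        rw [eq_comm, Option.map_eq_none_iff] at h1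
        rw [h1]
      | some t =>
        cases h3 : key1 lt A 0 (Y τ') with
        | none =>
          rw [h2, h3] at h1
          simp at h1
        | some t' =>
          rw [h2, h3] at h1
          simp only [Option.map_some, Option.some.injEq, Prod.mk.injEq] at h1
          have k1 := key1_le h2
          have k2 := key1_le h3
          have k3 := hn' τ
          have k4 := hn' τ'
          have e1 := ofNat_inj (by omega) (by omega) h1.1
          have e2 := ofNat_inj (by omega) (by omega) h1.2.1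
          rw [Option.some.injEq]
          exact Prod.ext e1 (Prod.ext e2 h1.2.2)
    obtain ⟨W, hW1, hW2, hW3⟩ := (hY τ).splice (Y := Y τ') (by rw [hr]; exact (hY τ').ch) hcount
    have h4 := mixed hG hS (hY τ) (hY τ') (by rw [yl, yl, hwl, hwl, word_length, word_length]) hkey
      (Y τ) [] W rfl hW1 (by intro p hp; rwa [hW2] at hp)
    have h5 := (hS _ hW3).2
    rw [h4, (hY τ).fl, hwl, hwl, ← hc] at h5
    simp only [Fl_nil, yl, lets_nil, List.length_nil, List.drop_zero] at h5
    exact agree h5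
  -- counting
  have hfib : ∀ a ∈ (Finset.univ : Finset (PI (TT m H) → Bool)).image κ,
      ((Finset.univ : Finset (PI (TT m H) → Bool)).filter fun x => κ x = a).card ≤
        2 ^ (Fintype.card (PI (TT m H)) - m) := by
    intro a ha
    rw [Finset.mem_image] at ha
    obtain ⟨τ₀, _, rfl⟩ := ha
    have h1 := card_agree (Finset.univ.filter fun p => cO (TT m H) (c τ₀) p ≠ cC (TT m H) (c τ₀) p)
      τ₀ (Finset.univ.filter fun x => κ x = κ τ₀) (by
        intro τ hτ p hp
        rw [Finset.mem_filter] at hτ hp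
        exact (hagree τ₀ τ hτ.2.symm p hp.2).symm)
    refine h1.trans (Nat.pow_le_pow_right (by norm_num) ?_)
    have h2 : (Finset.univ.filter fun p => cO (TT m H) (c τ₀) p ≠ cC (TT m H) (c τ₀) p).card =
        sepN (TT m H) (c τ₀) := by
      rw [Finset.card_filter, ← card_sep]
    rw [h2]
    have := hsep τ₀
    omega
  have h1 := Finset.card_le_mul_card_image (Finset.univ : Finset (PI (TT m H) → Bool)) _ hfib
  have hP : m ≤ Fintype.card (PI (TT m H)) := by
    have h2 := hsep (fun _ => false)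
    rw [← card_sep, ← Finset.card_filter] at h2
    exact h2.trans (Finset.card_le_univ _)
  rw [Finset.card_univ, Fintype.card_fun, Fintype.card_bool] at h1
  have h2 : ((Finset.univ : Finset (PI (TT m H) → Bool)).image κ).card ≤
      Fintype.card G.Lb * (8 * (n + 1) ^ 3) ^ Fintype.card G.N := by
    refine (Finset.card_le_univ _).trans ?_
    rw [Fintype.card_prod, Fintype.card_fun]
    refine Nat.mul_le_mul_left _ (Nat.pow_le_pow_left ?_ _)
    rw [Fintype.card_prod, Fintype.card_option, Fintype.card_prod, Fintype.card_prod,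
      Fintype.card_option, Fintype.card_fin]
    have h7 : Fintype.card YL = 6 := by decide
    rw [h7]
    have : 1 ≤ (n + 1) ^ 2 := Nat.one_le_pow _ _ (by omega)
    nlinarith
  have h3 : 2 ^ Fintype.card (PI (TT m H)) =
      2 ^ (Fintype.card (PI (TT m H)) - m) * 2 ^ m := by
    rw [← pow_add]
    congr 1
    omega
  rw [h3] at h1
  have h4 := Nat.le_of_mul_le_mul_left h1 (by positivity)
  rw [← hn] at hmK
  omega

end Pool.Agent.W2helper55.CRP
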