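import Pool.Agent.W2helper55.CRP.Sound
import Pool.Agent.W2helper55.CRP.LB2

/-!
# A Church-Rosser language which is not generated by non-erasing programmed grammars
-/

set_option autoImplicit false
set_option linter.all false

namespace Pool.Agent.W2helper55.CRP

/-- letters of the input alphabet -/
def ltS : Sg → Option YL
  | Sg.c => none
  | Sg.y l => some l

lemma lets_rep (k : ℕ) : lets ltS (List.replicate k Sg.c) = [] := by
  induction k with
  | zero => rfl
  | succ k ih => rw [List.replicate_succ, lets_cons, ih]; rfl

lemma lets_pad : ∀ (l : List YL) (R : ℕ), lets ltS (pad R l) = l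
  | [], _ => rfl
  | y :: l, R => by
    rw [pad, lets_cons, lets_append, lets_rep, lets_pad l]
    rfl

lemma pad_length (m : ℕ) : ∀ (l : List YL) (s : ℕ),
    pos m s + (pad (m + 2 + s) l).length = pos m (s + l.length)
  | [], s => rfl
  | y :: l, s => by
    have h := pad_length m l (s + 1)
    rw [pad, List.length_cons, List.length_append, List.length_replicate, List.length_cons,
      show s + (l.length + 1) = s + 1 + l.length by ring, ← h,
      show m + 2 + (s + 1) = m + 2 + s + 1 by ring]
    have h2 : pos m (s + 1) = pos m s + (m + 3 + s) := rfl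
    omega

lemma pad_pos (m : ℕ) : ∀ (l : List YL) (s : ℕ) (α : List Sg) (x : Sg) (β : List Sg),
    pad (m + 2 + s) l = α ++ x :: β → (ltS x).isSome →
      pos m s + α.length = pos m (s + (lets ltS α).length)
  | [], s, α, x, β, h, hx => by simp [pad] at h
  | y :: l, s, α, x, β, h, hx => by
    cases α with
    | nil => rfl
    | cons a α =>
      rw [pad, List.cons_append] at h
      injection h with h1 h2
      rcases List.append_eq_append_iff.1 h2 with ⟨a', ha, hb⟩ | ⟨a', ha, hb⟩
      · subst ha
        have h3 := pad_pos m l (s + 1) a' x β (by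
          rw [← hb, show m + 2 + (s + 1) = m + 2 + s + 1 by ring]) hx
        rw [← h1, lets_cons, lets_append, lets_rep]
        simp only [List.length_cons, List.length_append, List.length_replicate, ltS,
          Option.toList_some, List.length_nil, zero_add]
        have h4 : pos m (s + 1) = pos m s + (m + 3 + s) := rfl
        rw [show s + (1 + (lets ltS a').length) = s + 1 + (lets ltS a').length by ring, ← h3]
        omega
      · cases a' with
        | nil =>
          simp only [List.append_nil, List.nil_append] at ha hb
          have h3 := pad_pos m l (s + 1) [] x β (by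
            rw [List.nil_append, hb]
            try rw [show m + 2 + (s + 1) = m + 2 + s + 1 by ring]) hx
          rw [← h1, ← ha, lets_cons, lets_rep]
          simp only [List.length_cons, List.length_replicate, ltS, Option.toList_some,
            List.length_append, List.length_nil]
          simp only [lets_nil, List.length_nil] at h3
          have h4 : pos m (s + 1) = pos m s + (m + 3 + s) := rfl
          show pos m s + (m + 2 + s + 1) = pos m (s + (0 + 1 + 0))
          rw [show s + (0 + 1 + 0) = s + 1 by ring]
          omega
        | cons b a' =>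
          exfalso
          have hb' := hb
          rw [List.cons_append] at hb'
          injection hb' with h3 h4
          have h5 : b ∈ List.replicate (m + 2 + s) Sg.c := by rw [ha]; simp
          rw [List.mem_replicate] at h5
          rw [h3, h5.2] at hx
          simp [ltS] at hx

lemma pos_bound (m s : ℕ) : pos m s ≤ (m + 3 + s) * (s + 1) := by
  induction s with
  | zero => simp only [pos]; omega
  | succ s ih => simp only [pos]; nlinarith

lemma PosSpec_pad (m : ℕ) (l : List YL) :
    PosSpec ltS m (List.replicate m Sg.c ++ pad (m + 2) l) := by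
  constructor
  · intro α x β h hx
    rcases List.append_eq_append_iff.1 h with ⟨a', ha, hb⟩ | ⟨a', ha, hb⟩
    · subst ha
      have h3 := pad_pos m l 0 a' x β (by rw [← hb]) hx
      rw [lets_append, lets_rep]
      simp only [List.length_append, List.length_replicate, List.nil_append]
      rw [zero_add] at h3
      exact h3
    · cases a' with
      | nil =>
        simp only [List.append_nil, List.nil_append] at ha hb
        rw [← ha, lets_rep, List.length_replicate]
        try rfl
      | cons b a' =>
        exfalso
        rw [List.cons_append] at hb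
        injection hb with h3 h4
        have h5 : b ∈ List.replicate m Sg.c := by rw [ha]; simp
        rw [List.mem_replicate] at h5
        rw [h3, h5.2] at hx
        simp [ltS] at hx
  · have h := pad_length m l 0
    rw [lets_append, lets_rep, List.nil_append, lets_pad, List.length_append,
      List.length_replicate]
    rw [zero_add] at h
    exact h

variable {T : Type}

open Classical in
/-- letters of a larger alphabet -/
noncomputable def ltT (ι : Sg → T) (t : T) : Option YL :=
  if h : ∃ l, t = ι (Sg.y l) then some h.choose else none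

lemma ltT_comp {ι : Sg → T} (hι : Function.Injective ι) (a : Sg) : ltT ι (ι a) = ltS a := by
  unfold ltT
  cases a with
  | c =>
    rw [dif_neg]
    · rfl
    · rintro ⟨l, hl⟩
      have := hι hl
      simp at this
  | y l =>
    have h : ∃ l', ι (Sg.y l) = ι (Sg.y l') := ⟨l, rfl⟩
    rw [dif_pos h]
    have h2 := hι h.choose_spec
    simp only [Sg.y.injEq] at h2
    rw [← h2]
    rfl

lemma lets_map {ι : Sg → T} (hι : Function.Injective ι) (w : List Sg) :
    lets (ltT ι) (w.map ι) = lets ltS w := by
  unfold lets
  rw [List.filterMap_map]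
  congr 1
  funext a
  exact ltT_comp hι a

lemma PosSpec_map {ι : Sg → T} (hι : Function.Injective ι) {m : ℕ} {w : List Sg}
    (h : PosSpec ltS m w) : PosSpec (ltT ι) m (w.map ι) := by
  constructor
  · intro α x β h1 hx
    rw [List.map_eq_append_iff] at h1
    obtain ⟨w₁, w₂, rfl, rfl, h2⟩ := h1
    rw [List.map_eq_cons_iff] at h2
    obtain ⟨a, w₃, rfl, rfl, rfl⟩ := h2
    rw [ltT_comp hι] at hx
    rw [lets_map hι, List.length_map]
    exact h.1 w₁ a w₃ rfl hx
  · rw [lets_map hι, List.length_map]
    exact h.2

/-- the negative answer -/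
theorem main (T : Type) (ι : Sg → T) (hι : Function.Injective ι) (G : PGram T)
    (hG : G.NonErasing) : G.lang ≠ {z | ∃ w ∈ LL, w ≠ [] ∧ z = w.map ι} := by
  intro hL
  refine no_gram (lt := ltT ι) hG ?_ ?_
  · intro z hz
    rw [hL] at hz
    obtain ⟨w, hw, -, rfl⟩ := hz
    obtain ⟨m, l, rfl, hl⟩ := LL_struct hw
    refine ⟨⟨m, PosSpec_map hι (PosSpec_pad m l)⟩, ?_⟩
    rw [lets_map hι, lets_append, lets_rep, List.nil_append, lets_pad]
    exact hl
  · intro H
    refine ⟨8 * (4 * 2 ^ (H + 1)) ^ 2, fun m hm τ => ?_⟩
    have hlen := len_TT m H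
    have hlen2 : 4 * m ≤ len (TT m H) := by
      have h3 : 2 * 1 ≤ 2 ^ (H + 1) := by
        rw [pow_succ]
        have := Nat.one_le_two_pow (n := H)
        omega
      have h5 : 4 * m * 2 ≤ 4 * m * 2 ^ (H + 1) := Nat.mul_le_mul_left _ h3
      omega
    obtain ⟨M, hM⟩ : ∃ M, M = len (TT m H) := ⟨_, rfl⟩
    have hword : (word (TT m H) τ τ).length = M := by rw [word_length, hM]
    have hM1 : 1 ≤ M := by omega
    have hq1 := Nat.pow_log_le_self 2 (by omega : M ≠ 0)
    have hq2 := Nat.lt_pow_succ_log_self (by norm_num : 1 < 2) M
    have hne : word (TT m H) τ τ ≠ [] := by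
      intro h
      rw [h] at hword
      simp at hword
      omega
    have hmem := LL_mem (q := Nat.log 2 M) hne ((Okl_word _ _ _).2 rfl) (by rw [hword]; exact hq2)
    obtain ⟨Q, hQ⟩ : ∃ Q, Q = 2 ^ (Nat.log 2 M + 1) := ⟨_, rfl⟩
    rw [← hQ] at hmem hq2
    have hQ2 : Q ≤ 2 * M := by rw [hQ, pow_succ]; omega
    have hQ3 : 2 ≤ Q := by omega
    refine ⟨(List.replicate (Q - 2) Sg.c ++ pad Q (word (TT m H) τ τ)).map ι, ?_, ?_, ?_⟩
    · rw [hL]
      refine ⟨_, hmem, ?_, rfl⟩
      intro h
      have h2 := congrArg (fun w => (lets ltS w).length) h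
      simp only [lets_append, lets_rep, List.nil_append, lets_pad, hword, lets_nil,
        List.length_nil] at h2
      omega
    · rw [lets_map hι, lets_append, lets_rep, List.nil_append, lets_pad]
    · rw [List.length_map]
      have h6 := (PosSpec_pad (Q - 2) (word (TT m H) τ τ)).2
      rw [show Q - 2 + 2 = Q by omega, lets_append, lets_rep, List.nil_append, lets_pad, hword]
        at h6
      rw [h6]
      refine (pos_bound _ _).trans ?_
      have h7 : M ≤ 4 * 2 ^ (H + 1) * m := by
        calc M ≤ 4 * m * 2 ^ (H + 1) := by omega
          _ = _ := by ring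
      calc (Q - 2 + 3 + M) * (M + 1) ≤ (3 * M + 1) * (M + 1) := by
            apply Nat.mul_le_mul_right; omega
        _ ≤ (4 * M) * (2 * M) := by
            apply Nat.mul_le_mul <;> omega
        _ ≤ 8 * M ^ 2 := by ring_nf; exact le_rfl
        _ ≤ 8 * (4 * 2 ^ (H + 1) * m) ^ 2 := by gcongr
        _ = _ := by ring

end Pool.Agent.W2helper55.CRP
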