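import Pool.Agent.W2helper55.CRP.Comb

/-!
# The lower bound
-/

set_option autoImplicit false
set_option linter.all false

namespace Pool.Agent.W2helper55.CRP

open Relation

variable {T : Type} {lt : T → Option YL} {G : PGram T}

/-- number of letters -/
abbrev yl (lt : T → Option YL) (u : List T) : ℕ := (lets lt u).length

/-- the hypothesis on the language -/
def HS (lt : T → Option YL) (G : PGram T) : Prop :=
  ∀ z ∈ G.lang, (∃ m, PosSpec lt m z) ∧ Okl (lets lt z)

lemma uni (hG : G.NonErasing) (hS : HS lt G) {z : List T} {X₁ X₂ X₃ : List (AI G)} {A : G.N}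
    {u v : List T} {r : G.Lb}
    (h : Stage z (X₁ ++ Sum.inl (A, u) :: (X₂ ++ Sum.inl (A, v) :: X₃)) r) :
    yl lt u ≤ 1 ∧ lets lt u = lets lt v := by
  have h1 := hS _ h.swap
  have h2 := hS _ h.mem
  have h3 : z = Fl X₁ ++ u ++ Fl X₂ ++ v ++ Fl X₃ := by
    rw [← h.fl]; simp
  rw [h3] at h2
  obtain ⟨m, hm⟩ := h2.1
  obtain ⟨m', hm'⟩ := h1.1
  exact rig letRig hm hm' h2.2 h1.2 (h.ch.ne_nil hG (A, u) (by simp))
    (h.ch.ne_nil hG (A, v) (by simp))

lemma uni_ne (hG : G.NonErasing) (hS : HS lt G) {z : List T} {X₁ X₂ : List (AI G)} {A : G.N}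
    {u v : List T} {r : G.Lb} (h : Stage z (X₁ ++ Sum.inl (A, u) :: X₂) r)
    (hu : 2 ≤ yl lt u) : (Sum.inl (A, v) : AI G) ∉ X₁ ∧ (Sum.inl (A, v) : AI G) ∉ X₂ := by
  constructor
  · intro hv
    obtain ⟨Y₁, Y₂, rfl⟩ := List.append_of_mem hv
    have h1 := uni (X₁ := Y₁) (X₂ := Y₂) (X₃ := X₂) (A := A) (u := v) (v := u) hG hS
      (by simpa using h)
    rw [yl, ← h1.2] at hu
    change 2 ≤ yl lt v at hu
    have := h1.1
    omega
  · intro hv
    obtain ⟨Y₁, Y₂, rfl⟩ := List.append_of_mem hv
    have h1 := uni (X₁ := X₁) (X₂ := Y₁) (X₃ := Y₂) (A := A) (u := u) (v := v) hG hS h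
    have := h1.1
    omega

lemma uni_lets (hG : G.NonErasing) (hS : HS lt G) {z : List T} {X : List (AI G)} {A : G.N}
    {u v : List T} {r : G.Lb} (h : Stage z X r) (hu : (Sum.inl (A, u) : AI G) ∈ X)
    (hv : (Sum.inl (A, v) : AI G) ∈ X) : lets lt u = lets lt v := by
  obtain ⟨Y₁, Y₂, rfl⟩ := List.append_of_mem hu
  simp only [List.mem_append, List.mem_cons] at hv
  rcases hv with hv | hv | hv
  · obtain ⟨Z₁, Z₂, rfl⟩ := List.append_of_mem hv
    exact (uni (X₁ := Z₁) (X₂ := Z₂) (X₃ := Y₂) (A := A) (u := v) (v := u) hG hS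
      (by simpa using h)).2.symm
  · simp only [Sum.inl.injEq, Prod.mk.injEq, true_and] at hv
    rw [hv]
  · obtain ⟨Z₁, Z₂, rfl⟩ := List.append_of_mem hv
    exact (uni (X₁ := Y₁) (X₂ := Z₁) (X₃ := Z₂) (A := A) (u := u) (v := v) hG hS h).2

/-! ### keys -/

open Classical in
/-- data of the first occurrence of `A` -/
noncomputable def key1 (lt : T → Option YL) (A : G.N) : ℕ → List (AI G) →
    Option (ℕ × ℕ × Option YL)
  | _, [] => none
  | s, Sum.inr t :: X => key1 lt A (s + yl lt [t]) X
  | s, Sum.inl p :: X => if p.1 = A then some (s, yl lt p.2, (lets lt p.2).head?) else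
      key1 lt A (s + yl lt p.2) X

lemma yl_append (u v : List T) : yl lt (u ++ v) = yl lt u + yl lt v := by
  simp [yl]

lemma key1_some (A : G.N) : ∀ (X : List (AI G)) (s : ℕ), (∃ u, (Sum.inl (A, u) : AI G) ∈ X) →
    ∃ X₁ u X₂, X = X₁ ++ Sum.inl (A, u) :: X₂ ∧
      key1 lt A s X = some (s + yl lt (Fl X₁), yl lt u, (lets lt u).head?)
  | [], s, h => by simp at h
  | Sum.inr t :: X, s, h => by
    obtain ⟨u, hu⟩ := h
    obtain ⟨X₁, u, X₂, rfl, h2⟩ := key1_some A X (s + yl lt [t]) ⟨u, by simpa using hu⟩
    refine ⟨Sum.inr t :: X₁, u, X₂, rfl, ?_⟩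
    rw [key1, h2, Fl_inr, show t :: Fl X₁ = [t] ++ Fl X₁ from rfl, yl_append, add_assoc]
  | Sum.inl p :: X, s, h => by
    by_cases hp : p.1 = A
    · refine ⟨[], p.2, X, by rw [← hp]; rfl, ?_⟩
      rw [key1, if_pos hp]
      simp
    · obtain ⟨u, hu⟩ := h
      have hu' : (Sum.inl (A, u) : AI G) ∈ X := by
        rw [List.mem_cons] at hu
        rcases hu with hu | hu
        · simp only [Sum.inl.injEq] at hu
          rw [← hu] at hp
          exact absurd rfl hp
        · exact hu
      obtain ⟨X₁, u, X₂, rfl, h2⟩ := key1_some A X (s + yl lt p.2) ⟨u, hu'⟩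
      refine ⟨Sum.inl p :: X₁, u, X₂, rfl, ?_⟩
      rw [key1, if_neg hp, h2, Fl_inl, yl_append, add_assoc]

lemma key1_none (A : G.N) : ∀ (X : List (AI G)) (s : ℕ), (¬ ∃ u, (Sum.inl (A, u) : AI G) ∈ X) →
    key1 lt A s X = none
  | [], s, h => rfl
  | Sum.inr t :: X, s, h => by
    rw [key1]
    exact key1_none A X _ (by simpa using h)
  | Sum.inl p :: X, s, h => by
    have hp : p.1 ≠ A := by
      rintro rfl
      exact h ⟨p.2, by simp⟩
    rw [key1, if_neg hp]
    exact key1_none A X _ (fun ⟨u, hu⟩ => h ⟨u, List.mem_cons_of_mem _ hu⟩)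

/-! ### the cover -/

/-- the letters in long yields -/
def covI (lt : T → Option YL) : AI G → List Bool
  | Sum.inr t => List.replicate (yl lt [t]) false
  | Sum.inl p => List.replicate (yl lt p.2) (decide (2 ≤ yl lt p.2))

/-- the letters in long yields -/
def cov (lt : T → Option YL) (X : List (AI G)) : List Bool := X.flatMap (covI lt)

@[simp] lemma cov_nil : cov lt ([] : List (AI G)) = [] := rfl
@[simp] lemma cov_append (X Y : List (AI G)) : cov lt (X ++ Y) = cov lt X ++ cov lt Y :=
  List.flatMap_append
lemma cov_inl (p : G.N × List T) (X : List (AI G)) : cov lt (Sum.inl p :: X) =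
    List.replicate (yl lt p.2) (decide (2 ≤ yl lt p.2)) ++ cov lt X := rfl
lemma cov_inr (t : T) (X : List (AI G)) : cov lt (Sum.inr t :: X) =
    List.replicate (yl lt [t]) false ++ cov lt X := rfl

lemma cov_length (X : List (AI G)) : (cov lt X).length = yl lt (Fl X) := by
  induction X with
  | nil => rfl
  | cons a X ih =>
    cases a with
    | inl p => rw [cov_inl, Fl_inl, yl_append, List.length_append, ih, List.length_replicate]
    | inr t =>
      rw [cov_inr, Fl_inr, show t :: Fl X = [t] ++ Fl X from rfl, yl_append, List.length_append, ih,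
        List.length_replicate]

lemma mixF (n : ℕ) : ∀ (b : List Bool) (x xs Y : List YL), x.length = n → n ≤ Y.length →
    mix (List.replicate n false ++ b) (x ++ xs) Y = x ++ mix b xs (Y.drop n) := by
  induction n with
  | zero =>
    intro b x xs Y hx _
    rw [List.length_eq_zero_iff.1 hx]
    rfl
  | succ n ih =>
    intro b x xs Y hx hY
    obtain ⟨a, x, rfl⟩ := List.exists_cons_of_length_pos (l := x) (by omega)
    obtain ⟨y, Y, rfl⟩ := List.exists_cons_of_length_pos (l := Y) (by omega)
    rw [List.replicate_succ, List.cons_append, List.cons_append, mix, ih _ _ _ _ (by simpa using hx)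
      (by simpa using hY)]
    simp

lemma mixT (n : ℕ) : ∀ (b : List Bool) (x xs Y : List YL), x.length = n → n ≤ Y.length →
    mix (List.replicate n true ++ b) (x ++ xs) Y = Y.take n ++ mix b xs (Y.drop n) := by
  induction n with
  | zero =>
    intro b x xs Y hx _
    rw [List.length_eq_zero_iff.1 hx]
    rfl
  | succ n ih =>
    intro b x xs Y hx hY
    obtain ⟨a, x, rfl⟩ := List.exists_cons_of_length_pos (l := x) (by omega)
    obtain ⟨y, Y, rfl⟩ := List.exists_cons_of_length_pos (l := Y) (by omega)
    rw [List.replicate_succ, List.cons_append, List.cons_append, mix, ih _ _ _ _ (by simpa using hx)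
      (by simpa using hY)]
    simp

lemma eq_of_head {l l' : List YL} (h : l.length ≤ 1) (hl : l.length = l'.length)
    (hh : l.head? = l'.head?) : l = l' := by
  match l, l', h, hl, hh with
  | [], [], _, _, _ => rfl
  | [a], [b], _, _, hh => simpa using hh
  | [], b :: l, _, hl, _ => simp at hl
  | [a], [], _, hl, _ => simp at hl
  | [a], b :: c :: l, _, hl, _ => simp at hl
  | a :: b :: l, _, h, _, _ => simp at h

/-- the letters of the mixed word -/
lemma mixed (hG : G.NonErasing) (hS : HS lt G) {z z' : List T} {X X' : List (AI G)} {r r' : G.Lb}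
    (h : Stage z X r) (h' : Stage z' X' r') (hz : yl lt z = yl lt z')
    (hk : ∀ A : G.N, key1 lt A 0 X = key1 lt A 0 X') :
    ∀ (Q P Q' : List (AI G)), X = P ++ Q → Sk Q' = Sk Q → (∀ p ∈ nts Q', p ∈ nts X') →
      lets lt (Fl Q') = mix (cov lt Q) (lets lt (Fl Q)) ((lets lt z').drop (yl lt (Fl P))) := by
  intro Q
  induction Q with
  | nil =>
    intro P Q' _ hQ' _
    have : Q' = [] := by simpa [Sk] using hQ'
    subst this
    rfl
  | cons a Q ih =>
    intro P Q' hX hQ' hn
    have hlen : yl lt (Fl P) + yl lt (fl a) + yl lt (Fl Q) = yl lt z' := by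
      rw [← hz, ← h.fl, hX, Fl_append, show Fl (a :: Q) = fl a ++ Fl Q from rfl, yl_append,
        yl_append, add_assoc]
    cases a with
    | inr t =>
      have hlen' : yl lt (Fl P) + yl lt [t] + yl lt (Fl Q) = yl lt z' := hlen
      obtain ⟨b, Q₁, rfl⟩ : ∃ b Q₁, Q' = b :: Q₁ := by
        cases Q' with
        | nil => simp at hQ'
        | cons b Q₁ => exact ⟨b, Q₁, rfl⟩
      cases b with
      | inl p => simp at hQ'
      | inr t' =>
        simp only [Sk_inr, List.cons.injEq, Sum.inr.injEq] at hQ'
        obtain ⟨rfl, hQ'⟩ := hQ'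
        have h1 := ih (P ++ [Sum.inr t']) Q₁ (by simp [hX]) hQ' (fun p hp => hn p (by simpa using hp))
        rw [Fl_inr, Fl_inr, show t' :: Fl Q₁ = [t'] ++ Fl Q₁ from rfl,
          show t' :: Fl Q = [t'] ++ Fl Q from rfl, lets_append, lets_append, cov_inr,
          mixF (yl lt [t']) _ _ _ _ rfl (by
            rw [List.length_drop]; change _ ≤ yl lt z' - _; omega), h1]
        congr 2
        rw [List.drop_drop, Fl_append, yl_append]
        rfl
    | inl p =>
      have hlen' : yl lt (Fl P) + yl lt p.2 + yl lt (Fl Q) = yl lt z' := hlen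
      obtain ⟨b, Q₁, rfl⟩ : ∃ b Q₁, Q' = b :: Q₁ := by
        cases Q' with
        | nil => simp at hQ'
        | cons b Q₁ => exact ⟨b, Q₁, rfl⟩
      cases b with
      | inr t => simp at hQ'
      | inl p' =>
        obtain ⟨A, u⟩ := p
        obtain ⟨A', u'⟩ := p'
        simp only [Sk_inl, List.cons.injEq, Sum.inl.injEq] at hQ'
        obtain ⟨rfl, hQ'⟩ := hQ'
        have h1 := ih (P ++ [Sum.inl (A', u)]) Q₁ (by simp [hX]) hQ'
          (fun p hp => hn p (by simp [hp]))
        have h2 : (Sum.inl (A', u') : AI G) ∈ X' := mem_nts.1 (hn _ (by simp))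
        have h3 : (Sum.inl (A', u) : AI G) ∈ X := by rw [hX]; simp
        obtain ⟨X₁, u₁, X₂, hX1, hk1⟩ := key1_some (lt := lt) A' X 0 ⟨u, h3⟩
        obtain ⟨X₁', u₁', X₂', hX1', hk1'⟩ := key1_some (lt := lt) A' X' 0 ⟨u', h2⟩
        rw [hk, hk1'] at hk1
        simp only [zero_add, Option.some.injEq, Prod.mk.injEq] at hk1
        obtain ⟨k1, k2, k3⟩ := hk1
        have l1 : lets lt u = lets lt u₁ := uni_lets hG hS h h3 (by rw [hX1]; simp)
        have l2 : lets lt u' = lets lt u₁' := uni_lets hG hS h' h2 (by rw [hX1']; simp)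
        change yl lt (Fl P) + yl lt u + yl lt (Fl Q) = yl lt z' at hlen'
        simp only [Fl_inl, lets_append, cov_inl]
        by_cases hu : 2 ≤ yl lt u
        · have e1 : P = X₁ ∧ u = u₁ := by
            have hu1 : 2 ≤ yl lt u₁ := by rw [yl, ← l1]; exact hu
            rw [hX1] at h
            have hne := fun v => uni_ne (lt := lt) (v := v) hG hS h hu1
            rw [hX] at hX1
            rcases List.append_eq_append_iff.1 hX1 with ⟨a', rfl, ha'⟩ | ⟨a', rfl, ha'⟩
            · cases a' with
              | nil => simp at ha'; exact ⟨by simp, ha'.1⟩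
              | cons b a' =>
                simp only [List.cons_append, List.cons.injEq] at ha'
                exact absurd (by rw [← ha'.1]; simp) (hne u).1
            · cases a' with
              | nil => simp at ha'; exact ⟨by simp, ha'.1.symm⟩
              | cons b a' =>
                simp only [List.cons_append, List.cons.injEq] at ha'
                exact absurd (by rw [ha'.2]; simp) (hne u).2
          obtain ⟨rfl, rfl⟩ := e1
          have h4 : (lets lt z').drop (yl lt (Fl P)) = lets lt u₁' ++ lets lt (Fl X₂') := by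
            rw [← h'.fl, hX1', Fl_append, Fl_inl, lets_append, lets_append, ← k1]
            exact List.drop_left
          rw [decide_eq_true hu, mixT (yl lt u) _ _ _ _ rfl (by
            rw [List.length_drop]; change _ ≤ yl lt z' - _; omega), h4]
          have h5 : (lets lt u₁' ++ lets lt (Fl X₂')).take (yl lt u) = lets lt u₁' := by
            rw [← k2]; exact List.take_left
          have h6 : (lets lt u₁' ++ lets lt (Fl X₂')).drop (yl lt u) = lets lt (Fl X₂') := by
            rw [← k2]; exact List.drop_left
          rw [h5, h6, l2, h1]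
          congr 2
          rw [Fl_append, yl_append, ← List.drop_drop, h4]
          have h7 : yl lt (Fl [(Sum.inl (A', u) : AI G)]) = yl lt u := by simp [Fl_inl]
          rw [h7, h6]
        · rw [decide_eq_false hu, mixF (yl lt u) _ _ _ _ rfl (by
            rw [List.length_drop]; change _ ≤ yl lt z' - _; omega), h1]
          have e2 : lets lt u' = lets lt u := by
            rw [l1, l2]
            refine eq_of_head ?_ k2 k3
            change yl lt u₁' ≤ 1
            rw [k2, yl, ← l1]
            change yl lt u ≤ 1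
            omega
          rw [e2]
          congr 2
          rw [List.drop_drop, Fl_append, yl_append]
          simp [Fl_inl]

/-! ### properties of the cover -/

lemma cov_count_false (X : List (AI G)) : (cov lt X).count false ≤ X.length := by
  induction X with
  | nil => simp
  | cons a X ih =>
    cases a with
    | inl p =>
      rw [cov_inl, List.count_append, List.count_replicate, List.length_cons]
      by_cases h : 2 ≤ yl lt p.2
      · rw [decide_eq_true h]; simp; omega
      · rw [decide_eq_false h]; simp; omega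
    | inr t =>
      rw [cov_inr, List.count_append, List.count_replicate, List.length_cons]
      have : yl lt [t] ≤ 1 := by
        unfold yl
        rw [lets_cons]
        cases lt t <;> simp
      simp only [beq_self_eq_true, if_true]
      omega

lemma count_tf (l : List Bool) : l.count true + l.count false = l.length := by
  induction l with
  | nil => rfl
  | cons a l ih => cases a <;> simp [List.count_cons] <;> omega

lemma cov_map_inr (z : List T) : (cov lt (z.map Sum.inr : List (AI G))).count true = 0 := by
  induction z with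
  | nil => rfl
  | cons t z ih =>
    rw [List.map_cons, cov_inr, List.count_append, ih, List.count_replicate]
    simp

lemma cov_step (X₁ X₂ Z : List (AI G)) (A : G.N) :
    (cov lt (X₁ ++ Sum.inl (A, Fl Z) :: X₂)).count true ≤
      (cov lt (X₁ ++ Z ++ X₂)).count true + Z.length := by
  simp only [cov_append, cov_inl, List.count_append]
  have h1 := cov_count_false (lt := lt) Z
  have h2 := count_tf (cov lt Z)
  rw [cov_length] at h2
  have h3 : (List.replicate (yl lt (Fl Z)) (decide (2 ≤ yl lt (Fl Z)))).count true ≤
      yl lt (Fl Z) := by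
    refine List.count_le_length.trans ?_
    rw [List.length_replicate]
  omega

/-- the types of the long nonterminals -/
def longs (lt : T → Option YL) (X : List (AI G)) : List G.N :=
  X.filterMap fun a => match a with
    | Sum.inl p => if 2 ≤ yl lt p.2 then some p.1 else none
    | Sum.inr _ => none

lemma longs_append (X Y : List (AI G)) : longs lt (X ++ Y) = longs lt X ++ longs lt Y :=
  List.filterMap_append

lemma longs_mem {X : List (AI G)} {A : G.N} (h : A ∈ longs lt X) :
    ∃ u, (Sum.inl (A, u) : AI G) ∈ X ∧ 2 ≤ yl lt u := by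
  unfold longs at h
  rw [List.mem_filterMap] at h
  obtain ⟨a, ha, h1⟩ := h
  cases a with
  | inl p =>
    simp only [Option.ite_none_right_eq_some, Option.some.injEq] at h1
    obtain ⟨h2, rfl⟩ := h1
    exact ⟨p.2, ha, h2⟩
  | inr t => simp at h1

lemma longs_nodup (hG : G.NonErasing) (hS : HS lt G) {z : List T} {X : List (AI G)} {r : G.Lb}
    (h : Stage z X r) : (longs lt X).Nodup := by
  have key : ∀ (Q P : List (AI G)), X = P ++ Q → (longs lt Q).Nodup := by
    intro Q
    induction Q with
    | nil => intro P _; exact List.nodup_nil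
    | cons a Q ih =>
      intro P hX
      have h1 := ih (P ++ [a]) (by simp [hX])
      have h2 : longs lt (a :: Q) = longs lt [a] ++ longs lt Q := longs_append [a] Q
      rw [h2]
      cases a with
      | inr t => simpa [longs] using h1
      | inl p =>
        by_cases hp : 2 ≤ yl lt p.2
        · have h3 : longs lt [(Sum.inl p : AI G)] = [p.1] := by
            simp [longs, hp]
          rw [h3, List.singleton_append, List.nodup_cons]
          refine ⟨fun h4 => ?_, h1⟩
          obtain ⟨u, hu, _⟩ := longs_mem h4
          rw [hX] at h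
          exact (uni_ne (X₁ := P) (A := p.1) (u := p.2) (v := u) hG hS h hp).2 hu
        · have h3 : longs lt [(Sum.inl p : AI G)] = [] := by
            simp only [longs, List.filterMap_cons, if_neg hp, List.filterMap_nil]
          rw [h3, List.nil_append]
          exact h1
  exact key X [] rfl

lemma bdc_rep_append (x c : Bool) (n : ℕ) (L : List Bool) :
    bdc x (List.replicate (n + 1) c ++ L) = (if x = c then 0 else 1) + bdc c L := by
  rw [List.replicate_succ, List.cons_append, bdc, bdc_append, bdc_replicate, lst_replicate,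
    zero_add]

lemma bdc_cov (X : List (AI G)) : bdc false (cov lt X ++ [false]) ≤ 2 * (longs lt X).length ∧
    bdc true (cov lt X ++ [false]) ≤ 2 * (longs lt X).length + 1 := by
  induction X with
  | nil => simp [bdc, longs]
  | cons a X ih =>
    have h2 : longs lt (a :: X) = longs lt [a] ++ longs lt X := longs_append [a] X
    rw [h2, List.length_append]
    cases a with
    | inr t =>
      have h3 : (longs lt [(Sum.inr t : AI G)]).length = 0 := by simp [longs]
      rw [h3, cov_inr, List.append_assoc]
      cases hn : yl lt [t] with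
      | zero => simpa using ih
      | succ n =>
        rw [bdc_rep_append, bdc_rep_append]
        simp only [if_true, Bool.true_eq_false, if_false]
        omega
    | inl p =>
      rw [cov_inl, List.append_assoc]
      by_cases hp : 2 ≤ yl lt p.2
      · have h3 : (longs lt [(Sum.inl p : AI G)]).length = 1 := by
          simp only [longs, List.filterMap_cons, if_pos hp, List.filterMap_nil,
            List.length_singleton]
        rw [h3, decide_eq_true hp]
        obtain ⟨n, hn⟩ : ∃ n, yl lt p.2 = n + 1 := ⟨yl lt p.2 - 1, by omega⟩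
        rw [hn, bdc_rep_append, bdc_rep_append]
        simp only [if_true, Bool.false_eq_true, if_false]
        omega
      · have h3 : (longs lt [(Sum.inl p : AI G)]).length = 0 := by
          simp only [longs, List.filterMap_cons, if_neg hp, List.filterMap_nil, List.length_nil]
        rw [h3, decide_eq_false hp]
        cases hn : yl lt p.2 with
        | zero => simpa using ih
        | succ n =>
          rw [bdc_rep_append, bdc_rep_append]
          simp only [if_true, Bool.true_eq_false, if_false]
          omega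

/-! ### the chain of stages -/

lemma sweep {ρ : ℕ} (hρ : ∀ r, (G.rhs r).length ≤ ρ) {X : List (AI G)} {r : G.Lb} (h : Ch X r) :
    ∀ (z : List T) (θ : ℕ), (∃ r₀, ReflTransGen G.Step ([Sum.inl G.S], r₀) (Sk X, r)) → Fl X = z →
      θ ≤ (cov lt X).count true → ∃ (Y : List (AI G)) (r' : G.Lb), Stage z Y r' ∧
        θ ≤ (cov lt Y).count true ∧ (cov lt Y).count true ≤ θ + ρ := by
  induction h with
  | done w r =>
    intro z θ hr hf hθ
    rw [cov_map_inr] at hθ
    exact ⟨_, r, ⟨hr, Ch.done w r, hf⟩, by rw [cov_map_inr]; exact hθ, by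
      rw [cov_map_inr]; exact Nat.zero_le _⟩
  | app X₁ X₂ Z r r' h hZ hc ih =>
    intro z θ hr hf hθ
    have hZl : Z.length ≤ ρ := by
      have h1 := hρ r
      rw [← hZ, Sk, List.length_map] at h1
      exact h1
    by_cases h1 : θ ≤ (cov lt (X₁ ++ Z ++ X₂)).count true
    · obtain ⟨r₀, h0⟩ := hr
      refine ih z θ ⟨r₀, h0.tail ?_⟩ (by rw [← hf]; simp) h1
      have h3 := PGram.Step.app (G := G) (Sk X₁) (Sk X₂) r r' h
      rw [← hZ] at h3
      simpa only [Sk_append, Sk_inl, List.append_assoc] using h3
    · refine ⟨_, r, ⟨hr, Ch.app X₁ X₂ Z r r' h hZ hc, hf⟩, hθ, ?_⟩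
      have h2 := cov_step (lt := lt) X₁ X₂ Z (G.lhs r)
      omega
  | chk X r r' h h' hc ih =>
    intro z θ hr hf hθ
    obtain ⟨r₀, h0⟩ := hr
    exact ih z θ ⟨r₀, h0.tail (PGram.Step.chk _ r r' h h')⟩ hf hθ

lemma nts_card_le (hG : G.NonErasing) {X : List (AI G)} (h : ∀ p ∈ nts X, p.2 ≠ []) :
    (nts X).card ≤ (Fl X).length := by
  induction X with
  | nil => simp
  | cons a X ih =>
    cases a with
    | inl p =>
      have h1 := List.length_pos_of_ne_nil (h p (by simp))
      have h2 := ih fun q hq => h q (by simp [hq])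
      rw [nts_inl, Multiset.card_cons, Fl_inl, List.length_append]
      omega
    | inr t =>
      have h2 := ih fun q hq => h q (by simpa using hq)
      rw [nts_inr, Fl_inr, List.length_cons]
      omega

end Pool.Agent.W2helper55.CRP
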