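import Pool.Agent.W2helper55.CRP.Defs

/-!
# Confluence of orthogonal systems
-/

set_option autoImplicit false
set_option linter.all false

namespace Pool.Agent.W2helper55.CRP

open Relation

variable {Γ : Type} {R : List (List Γ × List Γ)}

lemma orth_step (ini : Γ → Prop)
    (h1 : ∀ p ∈ R, ∃ x t, p.1 = x :: t ∧ ini x ∧ ∀ y ∈ t, ¬ ini y)
    (h2 : ∀ p ∈ R, ∀ p' ∈ R, p.1 <+: p'.1 → p = p') {p₁ p₂ l₁ l₂ r₁ r₂ s₁ s₂ a : List Γ}
    (m1 : (l₁, r₁) ∈ R) (m2 : (l₂, r₂) ∈ R) (hp : p₂ = p₁ ++ a)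
    (he : l₁ ++ s₁ = a ++ (l₂ ++ s₂)) :
    p₁ ++ r₁ ++ s₁ = p₂ ++ r₂ ++ s₂ ∨
      ∃ z, Rw R (p₁ ++ r₁ ++ s₁) z ∧ Rw R (p₂ ++ r₂ ++ s₂) z := by
  subst hp
  cases a with
  | nil =>
    left
    have h3 : l₁ ++ s₁ = l₂ ++ s₂ := he
    have h4 : (l₁, r₁) = (l₂, r₂) := by
      rcases List.append_eq_append_iff.1 h3 with ⟨a', ha, _⟩ | ⟨a', ha, _⟩
      · exact h2 _ m1 _ m2 ⟨a', ha.symm⟩
      · exact (h2 _ m2 _ m1 ⟨a', ha.symm⟩).symm
    simp only [Prod.mk.injEq] at h4
    obtain ⟨rfl, rfl⟩ := h4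
    rw [List.append_cancel_left h3]
    simp
  | cons b a =>
    right
    rcases List.append_eq_append_iff.1 he with ⟨a', ha, hb⟩ | ⟨a', ha, hb⟩
    · -- disjoint
      subst hb
      refine ⟨p₁ ++ r₁ ++ a' ++ r₂ ++ s₂, ?_, ?_⟩
      · have := Rw.mk (R := R) (p₁ ++ r₁ ++ a') s₂ l₂ r₂ m2
        simpa using this
      · have := Rw.mk (R := R) p₁ (a' ++ r₂ ++ s₂) l₁ r₁ m1
        rw [ha]
        simpa using this
    · cases a' with
      | nil =>
        have hb' : s₁ = l₂ ++ s₂ := by simpa using hb.symm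
        have ha' : l₁ = b :: a := by simpa using ha
        subst hb'
        refine ⟨p₁ ++ r₁ ++ r₂ ++ s₂, ?_, ?_⟩
        · have := Rw.mk (R := R) (p₁ ++ r₁) s₂ l₂ r₂ m2
          simpa using this
        · have := Rw.mk (R := R) p₁ (r₂ ++ s₂) l₁ r₁ m1
          rw [ha'] at this
          simpa using this
      | cons d a' =>
        exfalso
        obtain ⟨x₁, t₁, e1, i1, n1⟩ := h1 _ m1
        obtain ⟨x₂, t₂, e2, i2, n2⟩ := h1 _ m2
        simp only at e1 e2
        rw [e2, List.cons_append] at hb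
        injection hb with hb1 hb2
        rw [e1] at ha
        rw [List.cons_append] at ha
        injection ha with ha1 ha2
        apply n1 d
        · rw [ha2]; simp
        · rw [← hb1]; exact i2

/-- orthogonal systems are confluent -/
theorem orth_confl (ini : Γ → Prop)
    (h1 : ∀ p ∈ R, ∃ x t, p.1 = x :: t ∧ ini x ∧ ∀ y ∈ t, ¬ ini y)
    (h2 : ∀ p ∈ R, ∀ p' ∈ R, p.1 <+: p'.1 → p = p') (u v w : List Γ) (huv : Rws R u v)
    (huw : Rws R u w) : ∃ z, Rws R v z ∧ Rws R w z := by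
  refine Relation.church_rosser ?_ huv huw
  intro a b c hab hac
  have key : b = c ∨ ∃ z, Rw R b z ∧ Rw R c z := by
    generalize ha' : a = a' at hac
    cases hab with
    | mk p₁ s₁ l₁ r₁ m1 =>
      cases hac with
      | mk p₂ s₂ l₂ r₂ m2 =>
        rw [List.append_assoc, List.append_assoc] at ha'
        rcases List.append_eq_append_iff.1 ha' with ⟨a', ha, hb⟩ | ⟨a', ha, hb⟩
        · exact orth_step ini h1 h2 m1 m2 ha hb
        · rcases orth_step ini h1 h2 m2 m1 ha hb with h | ⟨z, h, h'⟩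
          · exact Or.inl h.symm
          · exact Or.inr ⟨z, h', h⟩
  rcases key with rfl | ⟨z, h, h'⟩
  · exact ⟨b, ReflGen.refl, ReflTransGen.refl⟩
  · exact ⟨z, ReflGen.single h, ReflTransGen.single h'⟩

lemma Rws.ctx {u v : List Γ} (h : Rws R u v) (p s : List Γ) :
    Rws R (p ++ u ++ s) (p ++ v ++ s) := by
  induction h with
  | refl => exact ReflTransGen.refl
  | tail _ h ih =>
    refine ih.tail ?_
    cases h with
    | mk p' s' l r hr =>
      have := Rw.mk (R := R) (p ++ p') (s' ++ s) l r hr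
      simpa using this

lemma Rws.cons {u v : List Γ} (h : Rws R u v) (a : Γ) : Rws R (a :: u) (a :: v) := by
  simpa using h.ctx [a] []

lemma Rws.rule {l r : List Γ} (h : (l, r) ∈ R) (s : List Γ) : Rws R (l ++ s) (r ++ s) := by
  have := Rw.mk (R := R) [] s l r h
  exact ReflTransGen.single (by simpa using this)

end Pool.Agent.W2helper55.CRP
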