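import Pool.Agent.W2helper55.CRP.Ann

/-!
# Rigidity of words with increasing run lengths
-/

set_option autoImplicit false
set_option linter.all false

namespace Pool.Agent.W2helper55.CRP

/-- the position of the letter with number `s` -/
def pos (m : ℕ) : ℕ → ℕ
  | 0 => m
  | s + 1 => pos m s + (m + 3 + s)

lemma pos_lt_left {m m' : ℕ} (h : m < m') (s : ℕ) : pos m s < pos m' s := by
  induction s with
  | zero => exact h
  | succ s ih => simp only [pos]; omega

lemma pos_lt (m : ℕ) {s s' : ℕ} (h : s < s') : pos m s < pos m s' := by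
  induction h with
  | refl => simp only [pos]; omega
  | step _ ih => simp only [pos] at ih ⊢; omega

lemma pos_le (m : ℕ) {s s' : ℕ} (h : s ≤ s') : pos m s ≤ pos m s' := by
  rcases h.eq_or_lt with rfl | h
  · exact le_rfl
  · exact (pos_lt m h).le

lemma pos_conv (m x d : ℕ) {e : ℕ} (hd : 1 ≤ d) (he : 1 ≤ e) :
    pos m (x + d) + pos m (x + e) < pos m (x + e + d) + pos m x := by
  induction hd with
  | refl =>
    have h1 : pos m (x + 1) = pos m x + (m + 3 + x) := rfl
    have h2 : pos m (x + e + 1) = pos m (x + e) + (m + 3 + (x + e)) := rfl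
    omega
  | @step d _ ih =>
    have h1 : pos m (x + (d + 1)) = pos m (x + d) + (m + 3 + (x + d)) := rfl
    have h2 : pos m (x + e + (d + 1)) = pos m (x + e + d) + (m + 3 + (x + e + d)) := rfl
    have h3 : d.succ = d + 1 := rfl
    rw [h3]
    omega

variable {T Y : Type} (lt : T → Option Y)

/-- the letters of a word -/
def lets (z : List T) : List Y := z.filterMap lt

@[simp] lemma lets_nil : lets lt [] = [] := rfl
@[simp] lemma lets_append (u v : List T) : lets lt (u ++ v) = lets lt u ++ lets lt v :=
  List.filterMap_append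
lemma lets_cons (a : T) (v : List T) : lets lt (a :: v) = (lt a).toList ++ lets lt v := by
  unfold lets
  rw [List.filterMap_cons]
  cases lt a <;> rfl

/-- increasing run lengths -/
def PosSpec (m : ℕ) (z : List T) : Prop :=
  (∀ α x β, z = α ++ x :: β → (lt x).isSome → α.length = pos m (lets lt α).length) ∧
    z.length = pos m (lets lt z).length

variable {lt}

lemma exists_letter {u : List T} {y : Y} {l : List Y} (h : lets lt u = y :: l) :
    ∃ u₁ x u₂, u = u₁ ++ x :: u₂ ∧ lt x = some y ∧ lets lt u₁ = [] ∧ lets lt u₂ = l := by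
  induction u with
  | nil => simp at h
  | cons a u ih =>
    rw [lets_cons] at h
    cases ha : lt a with
    | none =>
      rw [ha] at h
      obtain ⟨u₁, x, u₂, rfl, h1, h2, h3⟩ := ih (by simpa using h)
      refine ⟨a :: u₁, x, u₂, rfl, h1, ?_, h3⟩
      rw [lets_cons, ha, h2]
      rfl
    | some b =>
      rw [ha] at h
      have h' : b :: lets lt u = y :: l := h
      injection h' with h1 h2
      exact ⟨[], a, u, rfl, by rw [ha, h1], rfl, h2⟩

lemma pos_m_unique {m m' : ℕ} {z z' : List T} (h : PosSpec lt m z) (h' : PosSpec lt m' z')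
    (hl : z.length = z'.length) (hy : (lets lt z).length = (lets lt z').length) : m = m' := by
  have h1 := h.2
  have h2 := h'.2
  rw [hl, hy] at h1
  rcases lt_trichotomy m m' with h3 | h3 | h3
  · have := pos_lt_left h3 (lets lt z').length; omega
  · exact h3
  · have := pos_lt_left h3 (lets lt z').length; omega

/-- a factor with two letters has one position only -/
lemma two_letters {m : ℕ} {α α' u β β' : List T} (h : PosSpec lt m (α ++ u ++ β))
    (h' : PosSpec lt m (α' ++ u ++ β')) (hu : 2 ≤ (lets lt u).length) :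
    α.length = α'.length ∧ (lets lt α).length = (lets lt α').length := by
  obtain ⟨y, l, hl⟩ := List.exists_cons_of_length_pos (by omega : 0 < (lets lt u).length)
  obtain ⟨u₁, x, u₂, rfl, hx, hu₁, hu₂⟩ := exists_letter hl
  rw [hl] at hu
  obtain ⟨y', l', hl'⟩ := List.exists_cons_of_length_pos (l := l) (by simp at hu; omega)
  subst hu₂
  obtain ⟨u₃, x', u₄, rfl, hx', hu₃, hu₄⟩ := exists_letter hl'
  have e1 : ∀ A B : List T, PosSpec lt m (A ++ (u₁ ++ x :: (u₃ ++ x' :: u₄)) ++ B) →
      A.length + u₁.length = pos m (lets lt A).length ∧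
        A.length + u₁.length + 1 + u₃.length = pos m ((lets lt A).length + 1) := by
    intro A B hAB
    have h1 := hAB.1 (A ++ u₁) x (u₃ ++ x' :: u₄ ++ B) (by simp) (by simp [hx])
    have h2 := hAB.1 (A ++ u₁ ++ x :: u₃) x' (u₄ ++ B) (by simp) (by simp [hx'])
    simp only [List.length_append, lets_append, hu₁, lets_cons, hx, hu₃, List.length_cons,
      Option.toList_some, List.length_nil, List.append_nil, List.singleton_append] at h1 h2
    constructor
    · simpa using h1
    · rw [← h2]; omega
  obtain ⟨a1, a2⟩ := e1 _ _ h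
  obtain ⟨b1, b2⟩ := e1 _ _ h'
  have h3 : (lets lt α).length = (lets lt α').length := by
    have h4 : pos m ((lets lt α).length + 1) = pos m (lets lt α).length + (m + 3 + (lets lt α).length)
      := rfl
    have h5 : pos m ((lets lt α').length + 1) =
      pos m (lets lt α').length + (m + 3 + (lets lt α').length) := rfl
    omega
  refine ⟨?_, h3⟩
  rw [h3] at a1
  omega

/-- the properties of the set of the letter sequences -/
structure LetRig (Ok : List Y → Prop) : Prop where
  swap : ∀ (A B C : List Y) (x y : Y), Ok (A ++ x :: (B ++ y :: C)) → Ok (A ++ y :: (B ++ x :: C)) →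
    x = y
  adj : ∀ (A C : List Y) (x : Y), ¬ Ok (A ++ x :: x :: C)

lemma rig_aux {Ok : List Y → Prop} (hO : LetRig Ok) {m : ℕ} {α u β v γ : List T}
    (h1 : PosSpec lt m (α ++ u ++ β ++ v ++ γ)) (h2 : PosSpec lt m (α ++ v ++ β ++ u ++ γ))
    (k1 : Ok (lets lt (α ++ u ++ β ++ v ++ γ))) (k2 : Ok (lets lt (α ++ v ++ β ++ u ++ γ)))
    (hu : u ≠ []) (hv : v ≠ []) (hju : lets lt u = []) (hjv : (lets lt v).length = 1) : False := by
  obtain ⟨y, hy⟩ := List.length_eq_one_iff.1 hjv
  obtain ⟨v₁, x, v₂, rfl, hx, hv₁, hv₂⟩ := exists_letter hy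
  have a1 := h1.1 (α ++ u ++ β ++ v₁) x (v₂ ++ γ) (by simp) (by simp [hx])
  have a2 := h2.1 (α ++ v₁) x (v₂ ++ β ++ u ++ γ) (by simp) (by simp [hx])
  simp only [List.length_append, lets_append, hju, hv₁, List.length_nil, List.append_nil,
    add_zero] at a1 a2
  have hupos : 0 < u.length := List.length_pos_of_ne_nil hu
  -- `β` has at least one letter
  have hb1 : 1 ≤ (lets lt β).length := by
    by_contra h0
    have h0' : (lets lt β).length = 0 := by omega
    rw [h0', add_zero] at a1
    omega
  -- and at most one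
  have hb2 : (lets lt β).length ≤ 1 := by
    by_contra h0
    have h3 := two_letters (α := α ++ u) (α' := α ++ (v₁ ++ x :: v₂)) (u := β)
      (β := (v₁ ++ x :: v₂) ++ γ) (β' := u ++ γ) (m := m) (by simpa using h1) (by simpa using h2)
      (by omega)
    have h4 := h3.2
    simp only [lets_append, List.length_append, hju, hv₁, lets_cons, hx, hv₂] at h4
    simp at h4
  obtain ⟨w, hw⟩ := List.length_eq_one_iff.1 (le_antisymm hb2 hb1)
  simp only [lets_append, hju, hy, hw, List.append_nil] at k1 k2
  have h5 := hO.swap (lets lt α) [] (lets lt γ) w y (by simpa using k1) (by simpa using k2)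
  subst h5
  exact hO.adj (lets lt α) (lets lt γ) w (by simpa using k1)

/-- interchanging two factors -/
theorem rig {Ok : List Y → Prop} (hO : LetRig Ok) {m m' : ℕ} {α u β v γ : List T}
    (h1 : PosSpec lt m (α ++ u ++ β ++ v ++ γ)) (h2 : PosSpec lt m' (α ++ v ++ β ++ u ++ γ))
    (k1 : Ok (lets lt (α ++ u ++ β ++ v ++ γ))) (k2 : Ok (lets lt (α ++ v ++ β ++ u ++ γ)))
    (hu : u ≠ []) (hv : v ≠ []) : (lets lt u).length ≤ 1 ∧ lets lt u = lets lt v := by
  have hm : m = m' := pos_m_unique h1 h2 (by simp only [List.length_append]; omega)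
    (by simp only [lets_append, List.length_append]; omega)
  subst hm
  have hupos : 0 < u.length := List.length_pos_of_ne_nil hu
  have hvpos : 0 < v.length := List.length_pos_of_ne_nil hv
  have hu1 : (lets lt u).length ≤ 1 := by
    by_contra h0
    have h3 := two_letters (α := α) (α' := α ++ v ++ β) (u := u) (β := β ++ v ++ γ) (β' := γ)
      (m := m) (by simpa using h1) (by simpa using h2) (by omega)
    have h4 := h3.1
    simp only [List.length_append] at h4
    omega
  have hv1 : (lets lt v).length ≤ 1 := by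
    by_contra h0
    have h3 := two_letters (α := α ++ u ++ β) (α' := α) (u := v) (β := γ) (β' := β ++ u ++ γ)
      (m := m) (by simpa using h1) (by simpa using h2) (by omega)
    have h4 := h3.1
    simp only [List.length_append] at h4
    omega
  refine ⟨hu1, ?_⟩
  rcases Nat.lt_or_ge (lets lt u).length 1 with h | h
  · have hu0 : lets lt u = [] := List.length_eq_zero_iff.1 (by omega)
    rcases Nat.lt_or_ge (lets lt v).length 1 with h' | h'
    · rw [hu0, List.length_eq_zero_iff.1 (by omega : (lets lt v).length = 0)]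
    · exact (rig_aux hO h1 h2 k1 k2 hu hv hu0 (by omega)).elim
  · obtain ⟨x, hx⟩ := List.length_eq_one_iff.1 (le_antisymm hu1 h)
    rcases Nat.lt_or_ge (lets lt v).length 1 with h' | h'
    · exact (rig_aux hO h2 h1 k2 k1 hv hu (List.length_eq_zero_iff.1 (by omega)) (by omega)).elim
    · obtain ⟨y, hy⟩ := List.length_eq_one_iff.1 (le_antisymm hv1 h')
      rw [hx, hy]
      simp only [lets_append, hx, hy] at k1 k2
      rw [hO.swap (lets lt α) (lets lt β) (lets lt γ) x y (by simpa using k1) (by simpa using k2)]

end Pool.Agent.W2helper55.CRP
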