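import Pool.Agent.W2helper55.CRP.Compl

/-!
# Only padded bracket words are accepted
-/

set_option autoImplicit false
set_option linter.all false

namespace Pool.Agent.W2helper55.CRP

open Relation

/-- cancelling cons -/
def psh : Gm → List Gm → List Gm
  | Gm.O b, Gm.C b' :: v => if b = b' then v else Gm.O b :: Gm.C b' :: v
  | Gm.Gd, Gm.F :: v => Gm.Y :: v
  | a, v => a :: v

lemma psh_c (v : List Gm) : psh Gm.c v = Gm.c :: v := by cases v <;> rfl
lemma psh_y (δ : Bool) (l : YL) (v : List Gm) : psh (Gm.y δ l) v = Gm.y δ l :: v := by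
  cases v <;> rfl
lemma psh_dl (v : List Gm) : psh Gm.dl v = Gm.dl :: v := by cases v <;> rfl
lemma psh_C (b : Bool) (v : List Gm) : psh (Gm.C b) v = Gm.C b :: v := by cases v <;> rfl
lemma psh_F (v : List Gm) : psh Gm.F v = Gm.F :: v := by cases v <;> rfl
lemma psh_Y (v : List Gm) : psh Gm.Y v = Gm.Y :: v := by cases v <;> rfl

/-- the action of the heads `e b` -/
inductive Te : Bool → List Gm → List Gm → Prop
  | cc (b : Bool) (v w : List Gm) (h : Te b v w) : Te b (Gm.c :: Gm.c :: v) (Gm.c :: w)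
  | ey (δ : Bool) (l : YL) (v w : List Gm) (h : Te δ v w) :
      Te false (Gm.y δ l :: Gm.c :: v) (Gm.y false l :: w)
  | ecy (δ : Bool) (l : YL) (v w : List Gm) (h : Te (!δ) v w) :
      Te true (Gm.c :: Gm.y δ l :: Gm.c :: v) (Gm.y δ l :: w)
  | ed (v : List Gm) : Te false (Gm.dl :: v) (Gm.dl :: v)
  | ecd (v : List Gm) : Te true (Gm.c :: Gm.dl :: v) (Gm.dl :: v)

/-- the action of the head `h` -/
inductive Th : List Gm → List Gm → Prop
  | cc (v w : List Gm) (h : Th v w) : Th (Gm.c :: Gm.c :: v) (Gm.c :: w)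
  | hy (δ : Bool) (l : YL) (v w : List Gm) (h : Te δ v w) :
      Th (Gm.y δ l :: Gm.c :: v) (Gm.y false l :: w)
  | hcy (δ : Bool) (l : YL) (v w : List Gm) (h : Te (!δ) v w) :
      Th (Gm.c :: Gm.y δ l :: Gm.c :: v) (Gm.y δ l :: w)

/-- the action of the last heads -/
inductive Tf : Bool → SS → List Gm → List Gm → Prop
  | f00 (s : SS) (l : YL) (o : List Gm) (s' : SS) (ht : tr s l = some (o, s')) (v w : List Gm)
      (h : Tf false s' v w) : Tf false s (Gm.y false l :: Gm.c :: v) (o.foldr psh w)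
  | f01 (s : SS) (l : YL) (o : List Gm) (s' : SS) (ht : tr s l = some (o, s')) (v w : List Gm)
      (h : Tf true s' v w) : Tf false s (Gm.y true l :: Gm.c :: Gm.c :: v) (o.foldr psh w)
  | f10 (s : SS) (l : YL) (o : List Gm) (s' : SS) (ht : tr s l = some (o, s')) (v w : List Gm)
      (h : Tf true s' v w) : Tf true s (Gm.y false l :: Gm.c :: Gm.c :: v) (o.foldr psh w)
  | fd (b : Bool) (v : List Gm) : Tf b SS.n (Gm.dl :: v) (Gm.F :: v)

/-- the action of the generator -/
inductive Tg : List Gm → List Gm → Prop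
  | em (v v' w : List Gm) (h : Th v v') (h' : Tg v' w) : Tg (Gm.c :: Gm.c :: v) w
  | g0 (δ : Bool) (l : YL) (v w : List Gm) (h : Tf false SS.n (Gm.y δ l :: v) w) :
      Tg (Gm.y δ l :: v) (psh Gm.Gd w)
  | g1 (δ : Bool) (l : YL) (v w : List Gm) (h : Tf true SS.n (Gm.y δ l :: v) w) :
      Tg (Gm.c :: Gm.y δ l :: v) (psh Gm.Gd w)

/-- passive letters -/
def plain : Gm → Prop
  | Gm.g => False
  | Gm.h => False
  | Gm.e _ => False
  | Gm.f _ _ => False
  | _ => True

/-- the value of a word -/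
inductive Ev : List Gm → List Gm → Prop
  | nil : Ev [] []
  | ltr (a : Gm) (u v : List Gm) (ha : plain a) (h : Ev u v) : Ev (a :: u) (psh a v)
  | hh (u v w : List Gm) (h : Ev u v) (h' : Th v w) : Ev (Gm.h :: u) w
  | ee (b : Bool) (u v w : List Gm) (h : Ev u v) (h' : Te b v w) : Ev (Gm.e b :: u) w
  | ff (b : Bool) (s : SS) (u v w : List Gm) (h : Ev u v) (h' : Tf b s v w) :
      Ev (Gm.f b s :: u) w
  | gg (u v w : List Gm) (h : Ev u v) (h' : Tg v w) : Ev (Gm.g :: u) w

lemma Ev.c_inv {u z : List Gm} (h : Ev (Gm.c :: u) z) : ∃ v, Ev u v ∧ z = Gm.c :: v := by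
  cases h with
  | ltr a u v ha h => exact ⟨v, h, psh_c v⟩

lemma Ev.y_inv {δ : Bool} {l : YL} {u z : List Gm} (h : Ev (Gm.y δ l :: u) z) :
    ∃ v, Ev u v ∧ z = Gm.y δ l :: v := by
  cases h with
  | ltr a u v ha h => exact ⟨v, h, psh_y δ l v⟩

lemma Ev.dl_inv {u z : List Gm} (h : Ev (Gm.dl :: u) z) : ∃ v, Ev u v ∧ z = Gm.dl :: v := by
  cases h with
  | ltr a u v ha h => exact ⟨v, h, psh_dl v⟩

lemma Ev.h_inv {u z : List Gm} (h : Ev (Gm.h :: u) z) : ∃ v, Ev u v ∧ Th v z := by
  cases h with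
  | ltr a u v ha h => exact ha.elim
  | hh u v w h h' => exact ⟨v, h, h'⟩

lemma Ev.e_inv {b : Bool} {u z : List Gm} (h : Ev (Gm.e b :: u) z) : ∃ v, Ev u v ∧ Te b v z := by
  cases h with
  | ltr a u v ha h => exact ha.elim
  | ee b u v w h h' => exact ⟨v, h, h'⟩

lemma Ev.f_inv {b : Bool} {s : SS} {u z : List Gm} (h : Ev (Gm.f b s :: u) z) :
    ∃ v, Ev u v ∧ Tf b s v z := by
  cases h with
  | ltr a u v ha h => exact ha.elim
  | ff b s u v w h h' => exact ⟨v, h, h'⟩

lemma Ev.g_inv {u z : List Gm} (h : Ev (Gm.g :: u) z) : ∃ v, Ev u v ∧ Tg v z := by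
  cases h with
  | ltr a u v ha h => exact ha.elim
  | gg u v w h h' => exact ⟨v, h, h'⟩

lemma Ev.c {u v : List Gm} (h : Ev u v) : Ev (Gm.c :: u) (Gm.c :: v) := by
  have := Ev.ltr Gm.c u v trivial h
  rwa [psh_c] at this

lemma Ev.y {u v : List Gm} (h : Ev u v) (δ : Bool) (l : YL) :
    Ev (Gm.y δ l :: u) (Gm.y δ l :: v) := by
  have := Ev.ltr (Gm.y δ l) u v trivial h
  rwa [psh_y] at this

lemma Ev.dl {u v : List Gm} (h : Ev u v) : Ev (Gm.dl :: u) (Gm.dl :: v) := by
  have := Ev.ltr Gm.dl u v trivial h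
  rwa [psh_dl] at this

lemma tr_plain {s : SS} {l : YL} {o : List Gm} {s' : SS} (h : tr s l = some (o, s')) :
    ∀ a ∈ o, plain a := by
  rcases s with _ | b | _ <;> rcases l with b' | _ | _ | b' <;>
    simp only [tr, Option.some.injEq, Prod.mk.injEq, reduceCtorEq] at h <;>
    (try (obtain ⟨rfl, _⟩ := h; simp [plain]))

lemma Ev.append_inv : ∀ (o : List Gm), (∀ a ∈ o, plain a) → ∀ {u z : List Gm}, Ev (o ++ u) z →
    ∃ v, Ev u v ∧ z = o.foldr psh v
  | [], _, u, z, h => ⟨z, h, rfl⟩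
  | a :: o, ho, u, z, h => by
    have h' : Ev (a :: (o ++ u)) z := h
    have ha := ho a (by simp)
    cases h' with
    | ltr a u' v _ h1 =>
      obtain ⟨w, hw, rfl⟩ := Ev.append_inv o (fun b hb => ho b (List.mem_cons_of_mem _ hb)) h1
      exact ⟨w, hw, rfl⟩
    | hh u v w h h' => exact ha.elim
    | ee b u v w h h' => exact ha.elim
    | ff b s u v w h h' => exact ha.elim
    | gg u v w h h' => exact ha.elim

/-- the value does not change under the rules (backwards) -/
lemma Ev.rule {l r : List Gm} (hr : Rule l r) {s z : List Gm} (h : Ev (r ++ s) z) :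
    Ev (l ++ s) z := by
  cases hr with
  | gcc =>
    obtain ⟨v, h1, h2⟩ := Ev.g_inv h
    obtain ⟨w, h3, h4⟩ := Ev.h_inv h1
    exact Ev.gg _ _ _ h3.c.c (Tg.em _ _ _ h4 h2)
  | hcc =>
    obtain ⟨v, h1, rfl⟩ := Ev.c_inv h
    obtain ⟨w, h3, h4⟩ := Ev.h_inv h1
    exact Ev.hh _ _ _ h3.c.c (Th.cc _ _ h4)
  | hy δ l =>
    obtain ⟨v, h1, rfl⟩ := Ev.y_inv h
    obtain ⟨w, h3, h4⟩ := Ev.e_inv h1
    exact Ev.hh _ _ _ (h3.c.y δ l) (Th.hy _ _ _ _ h4)
  | hcy δ l =>
    obtain ⟨v, h1, rfl⟩ := Ev.y_inv h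
    obtain ⟨w, h3, h4⟩ := Ev.e_inv h1
    exact Ev.hh _ _ _ (h3.c.y δ l).c (Th.hcy _ _ _ _ h4)
  | ecc b =>
    obtain ⟨v, h1, rfl⟩ := Ev.c_inv h
    obtain ⟨w, h3, h4⟩ := Ev.e_inv h1
    exact Ev.ee _ _ _ _ h3.c.c (Te.cc _ _ _ h4)
  | ey δ l =>
    obtain ⟨v, h1, rfl⟩ := Ev.y_inv h
    obtain ⟨w, h3, h4⟩ := Ev.e_inv h1
    exact Ev.ee _ _ _ _ (h3.c.y δ l) (Te.ey _ _ _ _ h4)
  | ecy δ l =>
    obtain ⟨v, h1, rfl⟩ := Ev.y_inv h
    obtain ⟨w, h3, h4⟩ := Ev.e_inv h1
    exact Ev.ee _ _ _ _ (h3.c.y δ l).c (Te.ecy _ _ _ _ h4)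
  | ed =>
    obtain ⟨v, h1, rfl⟩ := Ev.dl_inv h
    exact Ev.ee _ _ _ _ h1.dl (Te.ed v)
  | ecd =>
    obtain ⟨v, h1, rfl⟩ := Ev.dl_inv h
    exact Ev.ee _ _ _ _ h1.dl.c (Te.ecd v)
  | f00 q l o q' ht =>
    rw [List.append_assoc] at h
    obtain ⟨v, h1, rfl⟩ := Ev.append_inv o (tr_plain ht) h
    obtain ⟨w, h3, h4⟩ := Ev.f_inv h1
    exact Ev.ff _ _ _ _ _ (h3.c.y false l) (Tf.f00 _ _ _ _ ht _ _ h4)
  | f01 q l o q' ht =>
    rw [List.append_assoc] at h
    obtain ⟨v, h1, rfl⟩ := Ev.append_inv o (tr_plain ht) h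
    obtain ⟨w, h3, h4⟩ := Ev.f_inv h1
    exact Ev.ff _ _ _ _ _ (h3.c.c.y true l) (Tf.f01 _ _ _ _ ht _ _ h4)
  | f10 q l o q' ht =>
    rw [List.append_assoc] at h
    obtain ⟨v, h1, rfl⟩ := Ev.append_inv o (tr_plain ht) h
    obtain ⟨w, h3, h4⟩ := Ev.f_inv h1
    exact Ev.ff _ _ _ _ _ (h3.c.c.y false l) (Tf.f10 _ _ _ _ ht _ _ h4)
  | g00 l q' ht =>
    cases h with
    | ltr a u v ha h1 =>
      obtain ⟨w, h3, h4⟩ := Ev.f_inv h1
      exact Ev.gg _ _ _ (h3.c.y false l) (Tg.g0 _ _ _ _ (Tf.f00 _ _ _ _ ht _ _ h4))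
  | g01 l q' ht =>
    cases h with
    | ltr a u v ha h1 =>
      obtain ⟨w, h3, h4⟩ := Ev.f_inv h1
      exact Ev.gg _ _ _ (h3.c.c.y true l) (Tg.g0 _ _ _ _ (Tf.f01 _ _ _ _ ht _ _ h4))
  | g10 l q' ht =>
    cases h with
    | ltr a u v ha h1 =>
      obtain ⟨w, h3, h4⟩ := Ev.f_inv h1
      exact Ev.gg _ _ _ (h3.c.c.y false l).c (Tg.g1 _ _ _ _ (Tf.f10 _ _ _ _ ht _ _ h4))
  | fd b =>
    cases h with
    | ltr a u v ha h1 =>
      rw [psh_F]
      exact Ev.ff _ _ _ _ _ h1.dl (Tf.fd b v)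
  | OC b =>
    have h1 := Ev.ltr (Gm.C b) s z trivial h
    have h2 := Ev.ltr (Gm.O b) _ _ trivial h1
    rw [psh_C] at h2
    simpa [psh] using h2
  | GF =>
    cases h with
    | ltr a u v ha h1 =>
      rw [psh_Y]
      have h2 := Ev.ltr Gm.F _ _ trivial h1
      have h3 := Ev.ltr Gm.Gd _ _ trivial h2
      rw [psh_F] at h3
      exact h3

lemma Ev.ctx {u u' : List Gm} (h : ∀ z, Ev u z → Ev u' z) : ∀ (p : List Gm) {z : List Gm},
    Ev (p ++ u) z → Ev (p ++ u') z
  | [], z, hz => h z hz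
  | a :: p, z, hz => by
    have hz' : Ev (a :: (p ++ u)) z := hz
    show Ev (a :: (p ++ u')) z
    cases hz' with
    | ltr a u v ha h1 => exact Ev.ltr _ _ _ ha (Ev.ctx h p h1)
    | hh u v w h1 h' => exact Ev.hh _ _ _ (Ev.ctx h p h1) h'
    | ee b u v w h1 h' => exact Ev.ee _ _ _ _ (Ev.ctx h p h1) h'
    | ff b s u v w h1 h' => exact Ev.ff _ _ _ _ _ (Ev.ctx h p h1) h'
    | gg u v w h1 h' => exact Ev.gg _ _ _ (Ev.ctx h p h1) h'

lemma Ev.back {u v : List Gm} (h : Rws RR u v) {z : List Gm} (hz : Ev v z) : Ev u z := by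
  induction h using ReflTransGen.head_induction_on with
  | refl => exact hz
  | head h _ ih =>
    cases h with
    | mk p s l r hr =>
      rw [List.append_assoc] at ih ⊢
      exact Ev.ctx (fun z hz => Ev.rule (mem_RR.1 hr) hz) p ih

/-! ### the structure of accepted words -/

lemma rep_cons {k : ℕ} {X w : List Gm} {a : Gm} (h : a :: w = List.replicate k Gm.c ++ X)
    (ha : a ≠ Gm.c) : k = 0 ∧ a :: w = X := by
  cases k with
  | zero => exact ⟨rfl, by simpa using h⟩
  | succ k =>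
    rw [List.replicate_succ, List.cons_append] at h
    injection h with h1 _
    exact absurd h1 ha

lemma Te_inv {b : Bool} {v w : List Gm} (h : Te b v w) : ∀ (k R : ℕ) (l : List (Bool × YL)),
    1 ≤ R → w = List.replicate k Gm.c ++ (blk R l ++ [Gm.dl]) →
      ∃ l', v = List.replicate (2 * k + b.toNat) Gm.c ++ (blk (2 * R + b.toNat) l' ++ [Gm.dl]) ∧
        l'.map Prod.snd = l.map Prod.snd := by
  induction h with
  | cc b v w h ih =>
    intro k R l hR hw
    cases k with
    | zero =>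
      exfalso
      cases l with
      | nil => simp [blk] at hw
      | cons t l => simp [blk] at hw
    | succ k =>
      rw [List.replicate_succ, List.cons_append] at hw
      injection hw with _ hw
      obtain ⟨l', h1, h2⟩ := ih k R l hR hw
      refine ⟨l', ?_, h2⟩
      rw [h1, show 2 * (k + 1) + b.toNat = 2 * k + b.toNat + 1 + 1 by ring, List.replicate_succ,
        List.replicate_succ]
      rfl
  | ey δ y v w h ih =>
    intro k R l hR hw
    obtain ⟨rfl, hw⟩ := rep_cons hw (by simp)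
    cases l with
    | nil => simp [blk] at hw
    | cons t l =>
      obtain ⟨δ', y'⟩ := t
      simp only [blk, List.cons_append, List.cons.injEq, Gm.y.injEq] at hw
      obtain ⟨⟨rfl, rfl⟩, hw⟩ := hw
      simp only [Bool.toNat_false, add_zero] at hw
      obtain ⟨l', h1, h2⟩ := ih (R - 1) R l hR (by simpa using hw)
      refine ⟨(δ, y) :: l', ?_, by simp [h2]⟩
      rw [h1]
      simp only [blk, Bool.toNat_false, add_zero, mul_zero, List.replicate_zero, List.nil_append,
        List.cons_append]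
      rw [show 2 * R + δ.toNat - 1 = (2 * (R - 1) + δ.toNat) + 1 by omega, List.replicate_succ]
      simp
  | ecy δ y v w h ih =>
    intro k R l hR hw
    obtain ⟨rfl, hw⟩ := rep_cons hw (by simp)
    cases l with
    | nil => simp [blk] at hw
    | cons t l =>
      obtain ⟨δ', y'⟩ := t
      simp only [blk, List.cons_append, List.cons.injEq, Gm.y.injEq] at hw
      obtain ⟨⟨rfl, rfl⟩, hw⟩ := hw
      obtain ⟨l', h1, h2⟩ := ih (R + δ.toNat - 1) (R + δ.toNat) l (by omega) (by simpa using hw)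
      refine ⟨(δ, y) :: l', ?_, by simp [h2]⟩
      rw [h1]
      have e2 : 2 * R + 1 + δ.toNat - 1 = (2 * (R + δ.toNat - 1) + (!δ).toNat) + 1 := by
        cases δ <;> simp <;> omega
      have e3 : 2 * R + 1 + δ.toNat = 2 * (R + δ.toNat) + (!δ).toNat := by
        cases δ <;> simp <;> omega
      simp only [blk, Bool.toNat_true, mul_zero, zero_add]
      rw [e2, e3, List.replicate_succ (n := 2 * (R + δ.toNat - 1) + (!δ).toNat)]
      simp
  | ed v =>
    intro k R l hR hw
    obtain ⟨rfl, hw⟩ := rep_cons hw (by simp)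
    cases l with
    | nil =>
      refine ⟨[], ?_, rfl⟩
      simpa [blk] using hw
    | cons t l => simp [blk] at hw
  | ecd v =>
    intro k R l hR hw
    obtain ⟨rfl, hw⟩ := rep_cons hw (by simp)
    cases l with
    | nil =>
      refine ⟨[], ?_, rfl⟩
      simpa [blk] using hw
    | cons t l => simp [blk] at hw

lemma Th_inv {v w : List Gm} (h : Th v w) : ∀ (k R : ℕ) (l : List (Bool × YL)),
    1 ≤ R → w = List.replicate k Gm.c ++ (blk R l ++ [Gm.dl]) →
      ∃ (b : Bool) (l' : List (Bool × YL)),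
        v = List.replicate (2 * k + b.toNat) Gm.c ++ (blk (2 * R + b.toNat) l' ++ [Gm.dl]) ∧
        l'.map Prod.snd = l.map Prod.snd := by
  induction h with
  | cc v w h ih =>
    intro k R l hR hw
    cases k with
    | zero =>
      exfalso
      cases l with
      | nil => simp [blk] at hw
      | cons t l => simp [blk] at hw
    | succ k =>
      rw [List.replicate_succ, List.cons_append] at hw
      injection hw with _ hw
      obtain ⟨b, l', h1, h2⟩ := ih k R l hR hw
      refine ⟨b, l', ?_, h2⟩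
      rw [h1, show 2 * (k + 1) + b.toNat = 2 * k + b.toNat + 1 + 1 by ring, List.replicate_succ,
        List.replicate_succ]
      rfl
  | hy δ y v w h =>
    intro k R l hR hw
    obtain ⟨l', h1, h2⟩ := Te_inv (Te.ey δ y v w h) k R l hR hw
    exact ⟨false, l', h1, h2⟩
  | hcy δ y v w h =>
    intro k R l hR hw
    obtain ⟨l', h1, h2⟩ := Te_inv (Te.ecy δ y v w h) k R l hR hw
    exact ⟨true, l', h1, h2⟩

lemma Tf_inv {b : Bool} {s : SS} {v w : List Gm} (h : Tf b s v w) : ∀ (st : List Bool),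
    w = st.map Gm.C ++ [Gm.F] → ∃ l, v = blk (2 + b.toNat) l ++ [Gm.dl] ∧
      okr s st (l.map Prod.snd) := by
  have key : ∀ (s : SS) (y : YL) (o : List Gm) (s' : SS) (ht : tr s y = some (o, s'))
      (w : List Gm) (st : List Bool), o.foldr psh w = st.map Gm.C ++ [Gm.F] →
      ∃ st', w = st'.map Gm.C ++ [Gm.F] ∧ ∀ l, okr s' st' l → okr s st (y :: l) := by
    intro s y o s' ht w st h
    rcases s with _ | c | _ <;> rcases y with d | _ | _ | d <;>
      simp only [tr, Option.some.injEq, Prod.mk.injEq, reduceCtorEq] at ht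
    · obtain ⟨rfl, rfl⟩ := ht
      exact ⟨st, h, fun l hl => by simpa [okr] using hl⟩
    · obtain ⟨rfl, rfl⟩ := ht
      exact ⟨st, h, fun l hl => by simpa only [okr] using hl⟩
    · obtain ⟨rfl, rfl⟩ := ht
      refine ⟨c :: st, ?_, fun l hl => by simpa only [okr] using hl⟩
      simp only [List.foldr_cons, List.foldr_nil] at h
      have hO : ∀ X : List Gm, st.map Gm.C ++ [Gm.F] ≠ Gm.O c :: X := by
        intro X
        cases st <;> simp
      cases w with
      | nil => exact absurd h.symm (hO _)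
      | cons a w =>
        cases a with
        | C b' =>
          simp only [psh] at h
          split_ifs at h with hb
          · rw [h, hb]; rfl
          · exact absurd h.symm (hO _)
        | _ => exact absurd h.symm (hO _)
    · obtain ⟨rfl, rfl⟩ := ht
      simp only [List.foldr_cons, List.foldr_nil, psh_C] at h
      cases st with
      | nil => simp at h
      | cons a st =>
        simp only [List.map_cons, List.cons_append, List.cons.injEq, Gm.C.injEq] at h
        obtain ⟨rfl, h⟩ := h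
        exact ⟨st, h, fun l hl => by simpa [okr] using hl⟩
  induction h with
  | f00 s y o s' ht v w h ih =>
    intro st hw
    obtain ⟨st', h1, h2⟩ := key s y o s' ht w st hw
    obtain ⟨l, h3, h4⟩ := ih st' h1
    exact ⟨(false, y) :: l, by rw [h3]; simp [blk], h2 _ h4⟩
  | f01 s y o s' ht v w h ih =>
    intro st hw
    obtain ⟨st', h1, h2⟩ := key s y o s' ht w st hw
    obtain ⟨l, h3, h4⟩ := ih st' h1
    exact ⟨(true, y) :: l, by rw [h3]; simp [blk, List.replicate_succ], h2 _ h4⟩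
  | f10 s y o s' ht v w h ih =>
    intro st hw
    obtain ⟨st', h1, h2⟩ := key s y o s' ht w st hw
    obtain ⟨l, h3, h4⟩ := ih st' h1
    exact ⟨(false, y) :: l, by rw [h3]; simp [blk, List.replicate_succ], h2 _ h4⟩
  | fd b v =>
    intro st hw
    cases st with
    | nil =>
      simp only [List.map_nil, List.nil_append, List.cons.injEq] at hw
      exact ⟨[], by rw [hw.2]; rfl, by simp [okr]⟩
    | cons a st => simp at hw

lemma psh_Gd_eq {w : List Gm} (h : psh Gm.Gd w = [Gm.Y]) : w = [Gm.F] := by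
  cases w with
  | nil => simp [psh] at h
  | cons a w => cases a <;> simp_all [psh]

lemma Tg_inv {v w : List Gm} (h : Tg v w) : w = [Gm.Y] → ∃ (R : ℕ) (l : List (Bool × YL)),
    2 ≤ R ∧ v = List.replicate (R - 2) Gm.c ++ (blk R l ++ [Gm.dl]) ∧
      okr SS.n [] (l.map Prod.snd) := by
  induction h with
  | em v v' w h h' ih =>
    intro hw
    obtain ⟨R, l, h1, h2, h3⟩ := ih hw
    obtain ⟨b, l', h4, h5⟩ := Th_inv h (R - 2) R l (by omega) h2
    refine ⟨2 * R + b.toNat, l', by omega, ?_, by rw [h5]; exact h3⟩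
    rw [h4, show 2 * R + b.toNat - 2 = 2 * (R - 2) + b.toNat + 1 + 1 by omega,
      List.replicate_succ, List.replicate_succ]
    rfl
  | g0 δ y v w h =>
    intro hw
    obtain ⟨l, h1, h2⟩ := Tf_inv h [] (by rw [psh_Gd_eq hw]; rfl)
    exact ⟨2, l, le_rfl, by simpa using h1, h2⟩
  | g1 δ y v w h =>
    intro hw
    obtain ⟨l, h1, h2⟩ := Tf_inv h [] (by rw [psh_Gd_eq hw]; rfl)
    exact ⟨3, l, by norm_num, by rw [h1]; rfl, h2⟩

/-- the embedding of the input alphabet -/
def iSg : Sg → Gm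
  | Sg.c => Gm.c
  | Sg.y l => Gm.y true l

lemma iSg_inj : Function.Injective iSg := by
  intro a b h
  cases a <;> cases b <;> simp_all [iSg]

lemma Ev_input : ∀ (w : List Sg) {z : List Gm}, Ev (w.map iSg ++ [Gm.dl]) z →
    z = w.map iSg ++ [Gm.dl]
  | [], z, h => by
    obtain ⟨v, h1, rfl⟩ := Ev.dl_inv h
    cases h1
    rfl
  | Sg.c :: w, z, h => by
    obtain ⟨v, h1, rfl⟩ := Ev.c_inv h
    rw [Ev_input w h1]
    rfl
  | Sg.y l :: w, z, h => by
    obtain ⟨v, h1, rfl⟩ := Ev.y_inv h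
    rw [Ev_input w h1]
    rfl

/-- the padded words -/
def pad : ℕ → List YL → List Sg
  | _, [] => []
  | R, y :: l => Sg.y y :: (List.replicate R Sg.c ++ pad (R + 1) l)

lemma blk_true : ∀ (l : List YL) (R : ℕ),
    blk R (l.map fun y => (true, y)) = (pad R l).map iSg
  | [], R => rfl
  | y :: l, R => by
    simp only [List.map_cons, blk, pad, List.map_append, List.map_replicate, Bool.toNat_true,
      blk_true l]
    rfl

lemma of_blk : ∀ (l : List (Bool × YL)) (R : ℕ) (w : List Sg),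
    blk R l = w.map iSg → 1 ≤ R → w = pad R (l.map Prod.snd)
  | [], R, w, h, _ => by
    have : w = [] := by simpa [blk] using h.symm
    rw [this]
    rfl
  | (δ, y) :: l, R, w, h, hR => by
    cases w with
    | nil => simp [blk] at h
    | cons a w =>
      simp only [blk, List.map_cons, List.cons.injEq] at h
      obtain ⟨h1, h2⟩ := h
      cases a with
      | c => simp [iSg] at h1
      | y y' =>
        simp only [iSg, Gm.y.injEq] at h1
        obtain ⟨rfl, rfl⟩ := h1
        simp only [Bool.toNat_true, Nat.add_sub_cancel] at h2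
        have h3 : w.map iSg = (List.replicate R Sg.c).map iSg ++ blk (R + 1) l := by
          rw [← h2, List.map_replicate]
          rfl
        rw [List.map_eq_append_iff] at h3
        obtain ⟨w₁, w₂, rfl, h4, h5⟩ := h3
        have h6 : w₁ = List.replicate R Sg.c := List.map_injective_iff.2 iSg_inj h4
        rw [h6, of_blk l (R + 1) w₂ h5.symm (by omega)]
        rfl

/-- the language -/
def LL : Set (List Sg) := {w | Rws RR ([Gm.g] ++ w.map iSg ++ [Gm.dl]) [Gm.Y]}

theorem LL_struct {w : List Sg} (h : w ∈ LL) : ∃ (m : ℕ) (l : List YL),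
    w = List.replicate m Sg.c ++ pad (m + 2) l ∧ Okl l := by
  have h0 : Ev [Gm.Y] [Gm.Y] := by
    have := Ev.ltr Gm.Y [] [] trivial Ev.nil
    simpa [psh] using this
  have h1 : Ev (Gm.g :: (w.map iSg ++ [Gm.dl])) [Gm.Y] := by
    have := Ev.back h h0
    simpa using this
  obtain ⟨v, h2, h3⟩ := Ev.g_inv h1
  have h4 := Ev_input w h2
  subst h4
  obtain ⟨R, l, h5, h6, h7⟩ := Tg_inv h3 rfl
  rw [← List.append_assoc] at h6
  have h8 := List.append_cancel_right h6
  have h9 : w.map iSg = (List.replicate (R - 2) Sg.c).map iSg ++ blk R l := by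
    rw [h8, List.map_replicate]
    rfl
  rw [List.map_eq_append_iff] at h9
  obtain ⟨w₁, w₂, rfl, h10, h11⟩ := h9
  have h12 : w₁ = List.replicate (R - 2) Sg.c := List.map_injective_iff.2 iSg_inj h10
  refine ⟨R - 2, l.map Prod.snd, ?_, h7⟩
  rw [h12, of_blk l R w₂ h11.symm (by omega), show R - 2 + 2 = R by omega]

theorem LL_mem {q : ℕ} {l : List YL} (hl : l ≠ []) (h : Okl l) (hq : l.length < 2 ^ (q + 1)) :
    List.replicate (2 ^ (q + 1) - 2) Sg.c ++ pad (2 ^ (q + 1)) l ∈ LL := by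
  have h1 := accept q (l.map fun y => (true, y)) (2 ^ (q + 1)) (by simpa using hl)
    (by
      rw [List.map_map]
      have h' : okr SS.n [] l := h
      simpa [Function.comp_def] using h') le_rfl (by
      have e1 : tot (l.map fun y => (true, y)) = l.length := by
        unfold tot
        rw [List.map_map]
        simp [Function.comp_def]
      rw [e1, pow_succ 2 (q + 1)]
      omega)
  rw [blk_true] at h1
  unfold LL
  rw [Set.mem_setOf_eq, List.map_append, List.map_replicate]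
  simpa [iSg] using h1

theorem LL_CRL : IsCRL LL := by
  refine ⟨Gm, iSg, RR, [Gm.g], [Gm.dl], Gm.Y, inferInstance, iSg_inj, ?_, RR_confl, ?_, ?_, ?_, ?_,
    ?_, ?_, fun w => Iff.rfl⟩
  · intro p hp
    exact (Rule.len (mem_RR.1 hp)).1
  · intro x hx
    rw [List.mem_singleton] at hx
    subst hx
    rintro ⟨a, ha⟩
    cases a <;> simp [iSg] at ha
  · intro x hx
    rw [List.mem_singleton] at hx
    subst hx
    rintro ⟨a, ha⟩
    cases a <;> simp [iSg] at ha
  · rintro ⟨a, ha⟩
    cases a <;> simp [iSg] at ha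
  all_goals
    intro u hu
    generalize hx : ([_] : List Gm) = x at hu
    cases hu with
    | mk p s l r hr =>
      have h1 := (mem_RR.1 hr)
      have h2 : 2 ≤ l.length := by
        cases h1 <;> simp
      have h3 := congrArg List.length hx
      simp only [List.length_append, List.length_singleton] at h3
      omega

end Pool.Agent.W2helper55.CRP
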