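import Pool.Agent.W2helper55.CRP.Orth
import Pool.Agent.W2helper55.CRP.Dy

/-!
# The rewriting system
-/

set_option autoImplicit false
set_option linter.all false

namespace Pool.Agent.W2helper55.CRP

open Relation

/-- the input alphabet -/
inductive Sg
  | c
  | y (l : YL)
  deriving DecidableEq, Fintype

/-- the work alphabet -/
inductive Gm
  | c
  | y (δ : Bool) (l : YL)
  | g
  | h
  | e (b : Bool)
  | f (b : Bool) (s : SS)
  | O (b : Bool)
  | C (b : Bool)
  | dl
  | Gd
  | F
  | Y
  deriving DecidableEq, Fintype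

/-- the parser -/
def tr : SS → YL → Option (List Gm × SS)
  | SS.n, YL.op b => some ([], SS.o b)
  | SS.n, YL.q => some ([], SS.k)
  | SS.o b, YL.p => some ([Gm.O b], SS.n)
  | SS.k, YL.cl b => some ([Gm.C b], SS.n)
  | _, _ => none

open Gm in
/-- the rules -/
inductive Rule : List Gm → List Gm → Prop
  | gcc : Rule [g, c, c] [g, h]
  | hcc : Rule [h, c, c] [c, h]
  | hy (δ : Bool) (l : YL) : Rule [h, y δ l, c] [y false l, e δ]
  | hcy (δ : Bool) (l : YL) : Rule [h, c, y δ l, c] [y δ l, e (!δ)]
  | ecc (b : Bool) : Rule [e b, c, c] [c, e b]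
  | ey (δ : Bool) (l : YL) : Rule [e false, y δ l, c] [y false l, e δ]
  | ecy (δ : Bool) (l : YL) : Rule [e true, c, y δ l, c] [y δ l, e (!δ)]
  | ed : Rule [e false, dl] [dl]
  | ecd : Rule [e true, c, dl] [dl]
  | f00 (s : SS) (l : YL) (o : List Gm) (s' : SS) (ht : tr s l = some (o, s')) :
      Rule [f false s, y false l, c] (o ++ [f false s'])
  | f01 (s : SS) (l : YL) (o : List Gm) (s' : SS) (ht : tr s l = some (o, s')) :
      Rule [f false s, y true l, c, c] (o ++ [f true s'])
  | f10 (s : SS) (l : YL) (o : List Gm) (s' : SS) (ht : tr s l = some (o, s')) :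
      Rule [f true s, y false l, c, c] (o ++ [f true s'])
  | g00 (l : YL) (s' : SS) (ht : tr SS.n l = some ([], s')) :
      Rule [g, y false l, c] [Gd, f false s']
  | g01 (l : YL) (s' : SS) (ht : tr SS.n l = some ([], s')) :
      Rule [g, y true l, c, c] [Gd, f true s']
  | g10 (l : YL) (s' : SS) (ht : tr SS.n l = some ([], s')) :
      Rule [g, c, y false l, c, c] [Gd, f true s']
  | fd (b : Bool) : Rule [f b SS.n, dl] [F]
  | OC (b : Bool) : Rule [O b, C b] []
  | GF : Rule [Gd, F] [Y]

lemma tr_len {s : SS} {l : YL} {o : List Gm} {s' : SS} (h : tr s l = some (o, s')) :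
    o.length ≤ 1 := by
  rcases s with _ | b | _ <;> rcases l with b' | _ | _ | b' <;>
    simp only [tr, Option.some.injEq, Prod.mk.injEq, reduceCtorEq] at h <;>
    (try (obtain ⟨rfl, _⟩ := h; simp))

lemma Rule.len {l r : List Gm} (h : Rule l r) : r.length < l.length ∧ l.length ≤ 5 := by
  cases h <;> (try simp) <;> (try (rename_i ht; have := tr_len ht; omega))

lemma Rule.finite : {p : List Gm × List Gm | Rule p.1 p.2}.Finite := by
  refine Set.Finite.subset (((List.finite_length_le Gm 5).prod (List.finite_length_le Gm 5))) ?_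
  intro p hp
  have := Rule.len hp
  exact ⟨this.2, by
    show p.2.length ≤ 5
    omega⟩

/-- the system as a list -/
noncomputable def RR : List (List Gm × List Gm) := Rule.finite.toFinset.toList

lemma mem_RR {p : List Gm × List Gm} : p ∈ RR ↔ Rule p.1 p.2 := by
  unfold RR
  rw [Finset.mem_toList, Set.Finite.mem_toFinset]
  rfl

/-- initial letters of left sides -/
def ini : Gm → Prop
  | Gm.g => True
  | Gm.h => True
  | Gm.e _ => True
  | Gm.f _ _ => True
  | Gm.O _ => True
  | Gm.Gd => True
  | _ => False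

lemma Rule.orth1 {l r : List Gm} (h : Rule l r) : ∃ x t, l = x :: t ∧ ini x ∧ ∀ y ∈ t, ¬ ini y := by
  cases h <;> exact ⟨_, _, rfl, trivial, by simp [ini]⟩

lemma Rule.orth2 {l r l' r' : List Gm} (h : Rule l r) (h' : Rule l' r') (hp : l <+: l') :
    (l, r) = (l', r') := by
  cases h <;> cases h' <;> simp_all [List.cons_prefix_cons]

theorem RR_confl (u v w : List Gm) (huv : Rws RR u v) (huw : Rws RR u w) :
    ∃ z, Rws RR v z ∧ Rws RR w z :=
  orth_confl ini (fun p hp => (mem_RR.1 hp).orth1)
    (fun p hp p' hp' h => (mem_RR.1 hp).orth2 (mem_RR.1 hp') h) u v w huv huw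

end Pool.Agent.W2helper55.CRP
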